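import Mathlib
import Pool.Agent.H.MP_0335f8_al.helper41.Chev

/-!
# The Ree groups of type `F₄` inside the Chevalley group of type `E₆` (definitions)

The group of type `F₄` is generated by the elements `exp (t ad e_z)`, `z` a root of `E₆` fixed by
the symmetry of the diagram (the long roots), and `exp (t ad e_r) exp (t ad e_s)`, `r` and `s ≠ r`
two roots exchanged by the symmetry (the short roots).
-/

namespace H41R

open H41Chev

/-- the symmetry of the diagram (nodes numbered `1, 6, 3, 5, 4, 2`), on the root lattice -/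
def fl (v : Fin 6 → ℤ) : Fin 6 → ℤ := v ∘ ![1, 0, 3, 2, 4, 5]

/-- the short root of `F₄` which corresponds to the long root `z` when the two ends of the diagram
of `F₄` are exchanged, given as the sum of the two roots of `E₆` which it stands for -/
def dual (z : Fin 6 → ℤ) : Fin 6 → ℤ := ![z 5, z 5, z 4, z 4, 2 * z 2, 2 * z 0]

/-- the root elements of the Ree group: for a long root `z` and the short root `r, s` dual to it,
`exp (t^(2θ) ad e_z) exp (t ad e_r) exp (t ad e_s)`, times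
`exp (t^(2θ+1) ad e_(z+r)) exp (t^(2θ+1) ad e_(z+s))` if `(z, r) = -1`; here `t^(2θ)` is
`θ (t) ^ 2` -/
def reeSet (A : Matrix (Fin 6) (Fin 6) ℤ) {K : Type*} [Field K] (θ : K ≃+* K) : Set (GLM A K) :=
  {g | ∃ (z r s : Root A) (t : K), fl z.1 = z.1 ∧ fl r.1 = s.1 ∧ s.1 ≠ r.1 ∧
    r.1 + s.1 = dual z.1 ∧ ip A z.1 r.1 ≠ -1 ∧
    ∀ x : LieMod A K, g x = rootFun A z (θ t ^ 2) (rootFun A r t (rootFun A s t x))} ∪
  {g | ∃ (z r s u v : Root A) (t : K), fl z.1 = z.1 ∧ fl r.1 = s.1 ∧ s.1 ≠ r.1 ∧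
    r.1 + s.1 = dual z.1 ∧ ip A z.1 r.1 = -1 ∧ u.1 = z.1 + r.1 ∧ v.1 = z.1 + s.1 ∧
    ∀ x : LieMod A K, g x = rootFun A z (θ t ^ 2) (rootFun A r t (rootFun A s t
      (rootFun A u (θ t ^ 2 * t) (rootFun A v (θ t ^ 2 * t) x))))}

/-- the Ree group: the group generated by its root elements -/
def ReeGroup (A : Matrix (Fin 6) (Fin 6) ℤ) {K : Type*} [Field K] (θ : K ≃+* K) :
    Subgroup (GLM A K) := Subgroup.closure (reeSet A θ)

end H41R
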