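import Mathlib
import Pool.Agent.H.MP_0335f8_al.helper41g.GDefs
import Pool.Agent.H.MP_0335f8_al.helper41r.RDefs

/-!
# The exceptional groups of Lie type with more than one class of involutions (definitions)
-/

namespace H41R

open H41Chev H41G

/-- the Cartan matrix of type `E₆`, the nodes numbered in such a way that the symmetry of the
diagram exchanges the nodes `0, 1` and the nodes `2, 3` and fixes `4` and `5` -/
def CartanE₆' : Matrix (Fin 6) (Fin 6) ℤ :=
  CartanMatrix.E₆.submatrix ![0, 5, 2, 4, 3, 1] ![0, 5, 2, 4, 3, 1]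

/-- the Cartan matrix of type `D₄`, the central node last -/
def CartanD₄' : Matrix (Fin 4) (Fin 4) ℤ :=
  (CartanMatrix.D 4).submatrix ![0, 2, 3, 1] ![0, 2, 3, 1]

/-- the exceptional groups of Lie type over the finite field `K`, except those with a single
class of involutions: `E₆(K)`, `E₇(K)`, `E₈(K)`, `F₄(K)`; `²E₆(q)`, where `φ` has order two and
`K` has `q ^ 2` elements; in characteristic two, `G₂(K)`, `|K| > 2`, and `³D₄(q)`, where `φ` has
order three and `K` has `q ^ 3` elements, and the Ree groups `²F₄(K)`, `|K| > 2` -/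
inductive ExceptionalGroup (K : Type*) [Field K] : (G : Type _) → [Group G] → Prop
  | E₆ : ExceptionalGroup K ↥(SteinbergGroup CartanMatrix.E₆ id (RingEquiv.refl K))
  | E₇ : ExceptionalGroup K ↥(SteinbergGroup CartanMatrix.E₇ id (RingEquiv.refl K))
  | E₈ : ExceptionalGroup K ↥(SteinbergGroup CartanMatrix.E₈ id (RingEquiv.refl K))
  | F₄ : ExceptionalGroup K ↥(SteinbergGroup CartanE₆' ![1, 0, 3, 2, 4, 5] (RingEquiv.refl K))
  | twistedE₆ (φ : K ≃+* K) : (∀ x, φ (φ x) = x) → φ ≠ RingEquiv.refl K →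
      ExceptionalGroup K ↥(SteinbergGroup CartanE₆' ![1, 0, 3, 2, 4, 5] φ)
  | G₂ : (2 : K) = 0 → Nat.card K ≠ 2 →
      ExceptionalGroup K ↥(SteinbergGroup CartanD₄' ![2, 0, 1, 3] (RingEquiv.refl K))
  | twistedD₄ (φ : K ≃+* K) : (2 : K) = 0 → (∀ x, φ (φ (φ x)) = x) → φ ≠ RingEquiv.refl K →
      ExceptionalGroup K ↥(SteinbergGroup CartanD₄' ![2, 0, 1, 3] φ)
  | twistedF₄ (θ : K ≃+* K) : (2 : K) = 0 → Nat.card K ≠ 2 → (∀ x, θ (θ x) ^ 2 = x) →
      ExceptionalGroup K ↥(ReeGroup CartanE₆' θ)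

end H41R
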