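import Mathlib
import Pool.Agent.H.MP_0335f8_al.helper41r.RWord

/-!
# The root elements of the Ree group
-/

namespace H41R

open H41Chev

variable {K : Type*} [Field K]

/-- the root elements of the first kind -/
def Q (θ : K ≃+* K) (z r : Fin 6 → ℤ) (t : K) : GLM B6 K :=
  X good6t z (θ t ^ 2) * X good6t r t * X good6t (tau r) t

/-- the root elements of the second kind -/
def G (θ : K ≃+* K) (z r : Fin 6 → ℤ) (t : K) : GLM B6 K :=
  X good6t z (θ t ^ 2) * X good6t r t * X good6t (tau r) t *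
    X good6t (z + r) (θ t ^ 2 * t) * X good6t (z + tau r) (θ t ^ 2 * t)

/-- a long root and a dual short root -/
def Du (z r : Fin 6 → ℤ) : Prop :=
  ip B6 z z = 2 ∧ ip B6 r r = 2 ∧ tau z = z ∧ tau r ≠ r ∧ r + tau r = dual z

instance (z r : Fin 6 → ℤ) : Decidable (Du z r) := by unfold Du; infer_instance

/-- the Ree group -/
def RG (θ : K ≃+* K) : Subgroup (GLM B6 K) := ReeGroup B6 θ

theorem Q_mem (θ : K ≃+* K) {z r : Fin 6 → ℤ} (h : Du z r ∧ ip B6 z r ≠ -1) (t : K) :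
    Q θ z r t ∈ RG θ := by
  obtain ⟨⟨h1, h2, h3, h4, h5⟩, h6⟩ := h
  have hs : ip B6 (tau r) (tau r) = 2 := by rw [ip_flip]; exact h2
  refine Subgroup.subset_closure (Or.inl ⟨⟨z, h1⟩, ⟨r, h2⟩, ⟨tau r, hs⟩, t, h3, rfl, h4, h5, h6,
    fun x => ?_⟩)
  show X good6t z (θ t ^ 2) (X good6t r t (X good6t (tau r) t x)) = _
  rw [X_ap good6t h1, X_ap good6t h2, X_ap good6t hs]; rfl

theorem G_mem (θ : K ≃+* K) {z r : Fin 6 → ℤ} (h : Du z r ∧ ip B6 z r = -1) (t : K) :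
    G θ z r t ∈ RG θ := by
  obtain ⟨⟨h1, h2, h3, h4, h5⟩, h6⟩ := h
  have hs : ip B6 (tau r) (tau r) = 2 := by rw [ip_flip]; exact h2
  have h7 : ip B6 z (tau r) = -1 := by rw [← h6, ← ip_flip', h3]
  have hu := root_add good6t h1 h2 h6
  have hv := root_add good6t h1 hs h7
  refine Subgroup.subset_closure (Or.inr ⟨⟨z, h1⟩, ⟨r, h2⟩, ⟨tau r, hs⟩, ⟨z + r, hu⟩,
    ⟨z + tau r, hv⟩, t, h3, rfl, h4, h5, h6, rfl, rfl, fun x => ?_⟩)
  show X good6t z (θ t ^ 2) (X good6t r t (X good6t (tau r) t (X good6t (z + r) (θ t ^ 2 * t)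
    (X good6t (z + tau r) (θ t ^ 2 * t) x)))) = _
  rw [X_ap good6t h1, X_ap good6t h2, X_ap good6t hs, X_ap good6t hu, X_ap good6t hv]; rfl

theorem RG_le {θ : K ≃+* K} {L : Subgroup (GLM B6 K)}
    (h1 : ∀ z r t, Du z r → ip B6 z r ≠ -1 → Q θ z r t ∈ L)
    (h2 : ∀ z r t, Du z r → ip B6 z r = -1 → G θ z r t ∈ L) : RG θ ≤ L := by
  refine (Subgroup.closure_le _).2 ?_
  rintro g (⟨z, r, s, t, e1, e2, e3, e4, e5, hg⟩ | ⟨z, r, s, u, v, t, e1, e2, e3, e4, e5, e6, e7, hg⟩)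
  · have hs : s.1 = tau r.1 := e2.symm
    have : g = Q θ z.1 r.1 t := by
      refine gl_ext fun x => ?_
      have hs2 : ip B6 (tau r.1) (tau r.1) = 2 := by rw [← hs]; exact s.2
      show g x = X good6t z.1 (θ t ^ 2) (X good6t r.1 t (X good6t (tau r.1) t x))
      rw [X_ap good6t z.2, X_ap good6t r.2, X_ap good6t hs2, hg x]
      have e : s = ⟨tau r.1, hs2⟩ := Subtype.ext hs
      rw [← e]; rfl
    rw [this]
    exact h1 _ _ _ ⟨z.2, r.2, e1, by rw [← hs]; exact e3, by rw [← hs]; exact e4⟩ e5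
  · have hs : s.1 = tau r.1 := e2.symm
    have : g = G θ z.1 r.1 t := by
      refine gl_ext fun x => ?_
      have hs2 : ip B6 (tau r.1) (tau r.1) = 2 := by rw [← hs]; exact s.2
      have hu2 : ip B6 (z.1 + r.1) (z.1 + r.1) = 2 := by rw [← e6]; exact u.2
      have hv2 : ip B6 (z.1 + tau r.1) (z.1 + tau r.1) = 2 := by rw [← hs, ← e7]; exact v.2
      show g x = X good6t z.1 (θ t ^ 2) (X good6t r.1 t (X good6t (tau r.1) t
        (X good6t (z.1 + r.1) (θ t ^ 2 * t) (X good6t (z.1 + tau r.1) (θ t ^ 2 * t) x))))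
      rw [X_ap good6t z.2, X_ap good6t r.2, X_ap good6t hs2, X_ap good6t hu2, X_ap good6t hv2,
        hg x]
      have e : s = ⟨tau r.1, hs2⟩ := Subtype.ext hs
      have e' : u = ⟨z.1 + r.1, hu2⟩ := Subtype.ext e6
      have e'' : v = ⟨z.1 + tau r.1, hv2⟩ := Subtype.ext (by rw [e7, hs])
      rw [← e, ← e', ← e'']; rfl
    rw [this]
    exact h2 _ _ _ ⟨z.2, r.2, e1, by rw [← hs]; exact e3, by rw [← hs]; exact e4⟩ e5

/-! ### the directions -/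

/-- the long roots of the odd directions -/
def oz : Fin 8 → (Fin 6 → ℤ) :=
  ![![0, 0, 0, 0, 0, 1],
    ![0, 0, -1, -1, -2, -1],
    ![-1, -1, -2, -2, -2, -1],
    ![-1, -1, -1, -1, -2, -1],
    ![0, 0, 0, 0, 0, -1],
    ![0, 0, 1, 1, 2, 1],
    ![1, 1, 2, 2, 2, 1],
    ![1, 1, 1, 1, 2, 1]]

/-- the short roots of the odd directions -/
def orr : Fin 8 → (Fin 6 → ℤ) :=
  ![![0, 1, 0, 0, 0, 0],
    ![-1, 0, -1, -1, -1, 0],
    ![-1, 0, -1, -1, -2, -1],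
    ![-1, 0, -1, -1, -1, -1],
    ![0, -1, 0, 0, 0, 0],
    ![1, 0, 1, 1, 1, 0],
    ![1, 0, 1, 1, 2, 1],
    ![1, 0, 1, 1, 1, 1]]

/-- the long roots of the even directions, central -/
def ez : Fin 8 → (Fin 6 → ℤ) :=
  ![![0, 0, -1, -1, -1, 0],
    ![-1, -1, -2, -2, -3, -1],
    ![-1, -1, -2, -2, -3, -2],
    ![-1, -1, -1, -1, -1, -1],
    ![0, 0, 1, 1, 1, 0],
    ![1, 1, 2, 2, 3, 1],
    ![1, 1, 2, 2, 3, 2],
    ![1, 1, 1, 1, 1, 1]]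

/-- the short roots of the even directions, central -/
def er : Fin 8 → (Fin 6 → ℤ) :=
  ![![0, 0, -1, 0, -1, 0],
    ![-1, 0, -2, -1, -2, -1],
    ![-1, -1, -2, -1, -2, -1],
    ![-1, 0, -1, 0, -1, -1],
    ![0, 0, 1, 0, 1, 0],
    ![1, 0, 2, 1, 2, 1],
    ![1, 1, 2, 1, 2, 1],
    ![1, 0, 1, 0, 1, 1]]

/-- the long roots of the even directions, not central -/
def fz : Fin 8 → (Fin 6 → ℤ) :=
  ![![0, 0, 0, 0, -1, 0],
    ![0, 0, -1, -1, -1, -1],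
    ![-1, -1, -1, -1, -1, 0],
    ![0, 0, 0, 0, -1, -1],
    ![0, 0, 0, 0, 1, 0],
    ![0, 0, 1, 1, 1, 1],
    ![1, 1, 1, 1, 1, 0],
    ![0, 0, 0, 0, 1, 1]]

/-- the short roots of the even directions, not central -/
def fr : Fin 8 → (Fin 6 → ℤ) :=
  ![![0, 0, -1, 0, 0, 0],
    ![-1, 0, -1, 0, -1, 0],
    ![0, 0, -1, 0, -1, -1],
    ![-1, 0, -1, 0, 0, 0],
    ![0, 0, 1, 0, 0, 0],
    ![1, 0, 1, 0, 1, 0],
    ![0, 0, 1, 0, 1, 1],
    ![1, 0, 1, 0, 0, 0]]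

theorem od_ok : ∀ i, Du (oz i) (orr i) ∧ ip B6 (oz i) (orr i) ≠ -1 := by decide +kernel

theorem ev_ok : ∀ i, Du (ez i) (er i) ∧ ip B6 (ez i) (er i) ≠ -1 := by decide +kernel

theorem fv_ok : ∀ i, Du (fz i) (fr i) ∧ ip B6 (fz i) (fr i) = -1 := by decide +kernel

/-- the fixed roots -/
theorem fixed_aux : ∀ (a : Fin 3) (c : Fin 5) (e : Fin 7) (f : Fin 5),
    ip B6 ![(a : ℤ) - 1, (a : ℤ) - 1, (c : ℤ) - 2, (c : ℤ) - 2, (e : ℤ) - 3, (f : ℤ) - 2]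
      ![(a : ℤ) - 1, (a : ℤ) - 1, (c : ℤ) - 2, (c : ℤ) - 2, (e : ℤ) - 3, (f : ℤ) - 2] = 2 →
    (∃ i, oz i = ![(a : ℤ) - 1, (a : ℤ) - 1, (c : ℤ) - 2, (c : ℤ) - 2, (e : ℤ) - 3, (f : ℤ) - 2]) ∨
    (∃ i, ez i = ![(a : ℤ) - 1, (a : ℤ) - 1, (c : ℤ) - 2, (c : ℤ) - 2, (e : ℤ) - 3, (f : ℤ) - 2]) ∨
    (∃ i, fz i = ![(a : ℤ) - 1, (a : ℤ) - 1, (c : ℤ) - 2, (c : ℤ) - 2, (e : ℤ) - 3, (f : ℤ) - 2]) :=
  by decide +kernel

theorem fixed_roots {z : Fin 6 → ℤ} (hz : ip B6 z z = 2) (h : tau z = z) :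
    (∃ i, oz i = z) ∨ (∃ i, ez i = z) ∨ (∃ i, fz i = z) := by
  have h1 : z 1 = z 0 := congrFun h 0
  have h3 : z 3 = z 2 := congrFun h 2
  have e : 6 * ip B6 z z = 3 * (2 * z 0 - z 2) ^ 2 + (3 * z 2 - 2 * z 4) ^ 2 +
      3 * (2 * z 5 - z 4) ^ 2 + 3 * (2 * z 1 - z 3) ^ 2 + (3 * z 3 - 2 * z 4) ^ 2 + z 4 ^ 2 := by
    rw [ip6]; ring
  rw [h1, h3, hz] at e
  have s0 := sq_nonneg (2 * z 0 - z 2)
  have s1 := sq_nonneg (3 * z 2 - 2 * z 4)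
  have s2 := sq_nonneg (2 * z 5 - z 4)
  have s3 := sq_nonneg (z 4)
  have sm : ∀ (a n m : ℤ), a ^ 2 ≤ m → m < (n + 1) ^ 2 → 0 ≤ n → -n ≤ a ∧ a ≤ n := by
    intro a n m h1 h2 h3
    have : a ^ 2 < (n + 1) ^ 2 := lt_of_le_of_lt h1 h2
    have := abs_lt_of_sq_lt_sq this (by omega)
    rw [abs_lt] at this
    omega
  have b4 := sm (z 4) 3 12 (by linarith) (by norm_num) (by norm_num)
  have b2 := sm (3 * z 2 - 2 * z 4) 2 6 (by linarith) (by norm_num) (by norm_num)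
  have b0 := sm (2 * z 0 - z 2) 1 2 (by linarith) (by norm_num) (by norm_num)
  have b5 := sm (2 * z 5 - z 4) 2 4 (by linarith) (by norm_num) (by norm_num)
  have key : ∀ (n : ℕ) (x : ℤ), -(n : ℤ) ≤ x → x ≤ n → ∃ a : Fin (2 * n + 1), x = (a : ℤ) - n := by
    intro n x h h'
    refine ⟨⟨(x + n).toNat, by omega⟩, ?_⟩
    show x = (((x + n).toNat : ℕ) : ℤ) - n
    omega
  obtain ⟨a, ha⟩ := key 1 (z 0) (by push_cast; omega) (by push_cast; omega)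
  obtain ⟨c, hc⟩ := key 2 (z 2) (by push_cast; omega) (by push_cast; omega)
  obtain ⟨d, hd⟩ := key 3 (z 4) (by push_cast; omega) (by push_cast; omega)
  obtain ⟨f, hf⟩ := key 2 (z 5) (by push_cast; omega) (by push_cast; omega)
  have ev : z = ![(a : ℤ) - 1, (a : ℤ) - 1, (c : ℤ) - 2, (c : ℤ) - 2, (d : ℤ) - 3, (f : ℤ) - 2] := by
    apply ext6
    · exact ha
    · exact h1.trans ha
    · exact hc
    · exact h3.trans hc
    · exact hd
    · exact hf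
  rw [ev] at hz ⊢
  exact fixed_aux a c d f hz

/-- the short roots dual to the long roots of the list -/
theorem dual_aux : ∀ (i : Fin 8) (a b : Fin 3),
    (∀ z : Fin 6 → ℤ, z = oz i ∨ z = ez i ∨ z = fz i →
      Du z ![(z 5 + a - 1) / 2, (z 5 - a + 1) / 2, (z 4 + b - 1) / 2, (z 4 - b + 1) / 2,
        z 2, z 0] →
      (z = oz i ∧ (![(z 5 + a - 1) / 2, (z 5 - a + 1) / 2, (z 4 + b - 1) / 2, (z 4 - b + 1) / 2,
        z 2, z 0] = orr i ∨ ![(z 5 + a - 1) / 2, (z 5 - a + 1) / 2, (z 4 + b - 1) / 2,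
        (z 4 - b + 1) / 2, z 2, z 0] = tau (orr i))) ∨
      (z = ez i ∧ (![(z 5 + a - 1) / 2, (z 5 - a + 1) / 2, (z 4 + b - 1) / 2, (z 4 - b + 1) / 2,
        z 2, z 0] = er i ∨ ![(z 5 + a - 1) / 2, (z 5 - a + 1) / 2, (z 4 + b - 1) / 2,
        (z 4 - b + 1) / 2, z 2, z 0] = tau (er i))) ∨
      (z = fz i ∧ (![(z 5 + a - 1) / 2, (z 5 - a + 1) / 2, (z 4 + b - 1) / 2, (z 4 - b + 1) / 2,
        z 2, z 0] = fr i ∨ ![(z 5 + a - 1) / 2, (z 5 - a + 1) / 2, (z 4 + b - 1) / 2,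
        (z 4 - b + 1) / 2, z 2, z 0] = tau (fr i)))) := by
  intro i a b z hz
  rcases hz with rfl | rfl | rfl
  · revert i a b; decide +kernel
  · revert i a b; decide +kernel
  · revert i a b; decide +kernel

theorem dual_roots {z r : Fin 6 → ℤ} (h : Du z r) :
    (∃ i, z = oz i ∧ (r = orr i ∨ r = tau (orr i))) ∨
    (∃ i, z = ez i ∧ (r = er i ∨ r = tau (er i))) ∨
    (∃ i, z = fz i ∧ (r = fr i ∨ r = tau (fr i))) := by
  have h0 := h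
  obtain ⟨h1, h2, h3, h4, h5⟩ := h
  have o := orth_flip h2 h4
  have e : ip B6 r r - ip B6 r (tau r) =
      2 * ((r 0 - r 1) ^ 2 - (r 0 - r 1) * (r 2 - r 3) + (r 2 - r 3) ^ 2) := by
    rw [ip6, ip6]; simp only [flip_0, flip_1, flip_2, flip_3, flip_4, flip_5]; ring
  rw [h2, o] at e
  have d0 : r 0 + r 1 = z 5 := congrFun h5 0
  have d2 : r 2 + r 3 = z 4 := congrFun h5 2
  have d4 : r 4 + r 4 = 2 * z 2 := congrFun h5 4
  have d5 : r 5 + r 5 = 2 * z 0 := congrFun h5 5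
  have q1 : -1 ≤ r 0 - r 1 ∧ r 0 - r 1 ≤ 1 := by
    constructor <;> nlinarith [sq_nonneg ((r 0 - r 1) - 2 * (r 2 - r 3))]
  have q2 : -1 ≤ r 2 - r 3 ∧ r 2 - r 3 ≤ 1 := by
    constructor <;> nlinarith [sq_nonneg (2 * (r 0 - r 1) - (r 2 - r 3))]
  have key : ∀ (x : ℤ), -1 ≤ x → x ≤ 1 → ∃ a : Fin 3, x = (a : ℤ) - 1 := by
    intro x h h'
    refine ⟨⟨(x + 1).toNat, by omega⟩, ?_⟩
    show x = (((x + 1).toNat : ℕ) : ℤ) - 1
    omega
  obtain ⟨a, ha⟩ := key _ q1.1 q1.2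
  obtain ⟨b, hb⟩ := key _ q2.1 q2.2
  have hr : r = ![(z 5 + a - 1) / 2, (z 5 - a + 1) / 2, (z 4 + b - 1) / 2, (z 4 - b + 1) / 2,
        z 2, z 0] := by
    apply ext6
    · show r 0 = (z 5 + a - 1) / 2; omega
    · show r 1 = (z 5 - a + 1) / 2; omega
    · show r 2 = (z 4 + b - 1) / 2; omega
    · show r 3 = (z 4 - b + 1) / 2; omega
    · show r 4 = z 2; omega
    · show r 5 = z 0; omega
  have hf : ∃ i, z = oz i ∨ z = ez i ∨ z = fz i := by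
    rcases fixed_roots h1 h3 with ⟨i, hi⟩ | ⟨i, hi⟩ | ⟨i, hi⟩
    · exact ⟨i, Or.inl hi.symm⟩
    · exact ⟨i, Or.inr (Or.inl hi.symm)⟩
    · exact ⟨i, Or.inr (Or.inr hi.symm)⟩
  obtain ⟨i, hi⟩ := hf
  rw [hr] at h0
  have := dual_aux i a b z hi h0
  rw [← hr] at this
  rcases this with h | h | h
  · exact Or.inl ⟨i, h⟩
  · exact Or.inr (Or.inl ⟨i, h⟩)
  · exact Or.inr (Or.inr ⟨i, h⟩)

theorem Q_tau (θ : K ≃+* K) {z r : Fin 6 → ℤ} (h : ip B6 r (tau r) = 0) (t : K) :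
    Q θ z (tau r) t = Q θ z r t := by
  unfold Q
  rw [H41Chev.flip_flip, mul_assoc, mul_assoc, X_comm good6t (u := tau r) (v := r) (by rw [ip_flip', h])]

theorem G_tau (θ : K ≃+* K) {z r : Fin 6 → ℤ} (h : ip B6 r (tau r) = 0)
    (h2 : ip B6 (z + r) (z + tau r) = 0) (t : K) :
    G θ z (tau r) t = G θ z r t := by
  unfold G
  rw [H41Chev.flip_flip]
  have c1 := X_comm (K := K) good6t (u := tau r) (v := r) (by rw [ip_flip', h]) t t
  have c2 := X_comm (K := K) good6t (u := z + tau r) (v := z + r)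
    (by rw [ip_comm good6t, h2]) (θ t ^ 2 * t) (θ t ^ 2 * t)
  rw [mul_assoc (X good6t z _), c1, mul_assoc, c2]
  simp only [mul_assoc]

/-- the group is contained in `L` if the listed root elements are -/
theorem RG_le' {θ : K ≃+* K} {L : Subgroup (GLM B6 K)}
    (h1 : ∀ i t, Q θ (oz i) (orr i) t ∈ L) (h2 : ∀ i t, Q θ (ez i) (er i) t ∈ L)
    (h3 : ∀ i t, G θ (fz i) (fr i) t ∈ L) : RG θ ≤ L := by
  have o1 : ∀ i, ip B6 (orr i) (tau (orr i)) = 0 := by decide +kernel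
  have o2 : ∀ i, ip B6 (er i) (tau (er i)) = 0 := by decide +kernel
  have o3 : ∀ i, ip B6 (fr i) (tau (fr i)) = 0 := by decide +kernel
  have o4 : ∀ i, ip B6 (fz i + fr i) (fz i + tau (fr i)) = 0 := by decide +kernel
  have n1 : ∀ i, ip B6 (fz i) (tau (fr i)) = -1 := by decide +kernel
  have n2 : ∀ i, ip B6 (oz i) (tau (orr i)) ≠ -1 := by decide +kernel
  have n3 : ∀ i, ip B6 (ez i) (tau (er i)) ≠ -1 := by decide +kernel
  refine RG_le ?_ ?_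
  · intro z r t hd hn
    rcases dual_roots hd with ⟨i, rfl, rfl | rfl⟩ | ⟨i, rfl, rfl | rfl⟩ | ⟨i, rfl, rfl | rfl⟩
    · exact h1 i t
    · rw [Q_tau θ (o1 i)]; exact h1 i t
    · exact h2 i t
    · rw [Q_tau θ (o2 i)]; exact h2 i t
    · exact absurd (fv_ok i).2 hn
    · exact absurd (n1 i) hn
  · intro z r t hd hn
    rcases dual_roots hd with ⟨i, rfl, rfl | rfl⟩ | ⟨i, rfl, rfl | rfl⟩ | ⟨i, rfl, rfl | rfl⟩
    · exact absurd hn (od_ok i).2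
    · exact absurd hn (n2 i)
    · exact absurd hn (ev_ok i).2
    · exact absurd hn (n3 i)
    · exact h3 i t
    · rw [G_tau θ (o3 i) (o4 i)]; exact h3 i t

end H41R
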