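import Mathlib
import Pool.Agent.H.MP_0335f8_al.helper41r.RBase

/-!
# The relations between the root elements of the Ree group
-/

namespace H41R

open H41Chev

variable {K : Type*} [Field K]

/-- the values of the four variables -/
def vl (θ : K ≃+* K) (t u : Kˣ) : Fin 4 → Kˣ :=
  ![t, Units.map (θ : K →* K) t, u, Units.map (θ : K →* K) u]

/-- the parameter `t ^ a * θ t ^ (2 * b) * u ^ c * θ u ^ (2 * d)` -/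
def pm (θ : K ≃+* K) (t u : Kˣ) (a b c d : ℤ) : K := mon (vl θ t u) ![a, 2 * b, c, 2 * d]

theorem pm_eq (θ : K ≃+* K) (t u : Kˣ) (a b c d : ℤ) : pm θ t u a b c d =
    (t : K) ^ a * (θ t) ^ (2 * b) * (u : K) ^ c * (θ u) ^ (2 * d) := by
  unfold pm; rw [mon_eq]; rfl

/-- the list of a root element of the first kind -/
def qL (z r : Fin 6 → ℤ) (a b c d : ℤ) : XL :=
  [(z, ![2 * b, 2 * a, 2 * d, 2 * c]), (r, ![a, 2 * b, c, 2 * d]), (tau r, ![a, 2 * b, c, 2 * d])]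

/-- the list of a root element of the second kind -/
def gL (z r : Fin 6 → ℤ) (a b c d : ℤ) : XL :=
  [(z, ![2 * b, 2 * a, 2 * d, 2 * c]), (r, ![a, 2 * b, c, 2 * d]), (tau r, ![a, 2 * b, c, 2 * d]),
    (z + r, ![2 * b + a, 2 * a + 2 * b, 2 * d + c, 2 * c + 2 * d]),
    (z + tau r, ![2 * b + a, 2 * a + 2 * b, 2 * d + c, 2 * c + 2 * d])]

theorem th_pm {θ : K ≃+* K} (hθ : ∀ x, θ (θ x) ^ 2 = x) (t u : Kˣ) (a b c d : ℤ) :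
    θ (pm θ t u a b c d) ^ 2 = mon (vl θ t u) ![2 * b, 2 * a, 2 * d, 2 * c] := by
  rw [pm_eq, mon_eq]
  show _ = (t : K) ^ (2 * b) * (θ t) ^ (2 * a) * (u : K) ^ (2 * d) * (θ u) ^ (2 * c)
  rw [map_mul, map_mul, map_mul, map_zpow₀, map_zpow₀, map_zpow₀, map_zpow₀]
  have e1 : (θ (θ (t : K)) ^ (2 * b)) ^ 2 = (t : K) ^ (2 * b) := by
    conv_rhs => rw [← hθ (t : K)]
    rw [← zpow_natCast, ← zpow_natCast, ← zpow_mul, ← zpow_mul]; congr 1; push_cast; ring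
  have e2 : (θ (θ (u : K)) ^ (2 * d)) ^ 2 = (u : K) ^ (2 * d) := by
    conv_rhs => rw [← hθ (u : K)]
    rw [← zpow_natCast, ← zpow_natCast, ← zpow_mul, ← zpow_mul]; congr 1; push_cast; ring
  have e3 : (θ (t : K) ^ a) ^ 2 = θ (t : K) ^ (2 * a) := by
    rw [← zpow_natCast, ← zpow_mul]; congr 1; push_cast; ring
  have e4 : (θ (u : K) ^ c) ^ 2 = θ (u : K) ^ (2 * c) := by
    rw [← zpow_natCast, ← zpow_mul]; congr 1; push_cast; ring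
  rw [mul_pow, mul_pow, mul_pow, e1, e2, e3, e4]
  ring

theorem XM_q {θ : K ≃+* K} (hθ : ∀ x, θ (θ x) ^ 2 = x) (t u : Kˣ) (z r : Fin 6 → ℤ)
    (a b c d : ℤ) :
    (XM (vl θ t u) (qL z r a b c d) : GLM B6 K) = Q θ z r (pm θ t u a b c d) := by
  show X good6t z (mon (vl θ t u) _) * (X good6t r (mon (vl θ t u) _) *
    (X good6t (tau r) (mon (vl θ t u) _) * 1)) = _
  unfold Q
  rw [th_pm hθ, mul_one, ← mul_assoc]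
  rfl

theorem XM_g {θ : K ≃+* K} (hθ : ∀ x, θ (θ x) ^ 2 = x) (t u : Kˣ) (z r : Fin 6 → ℤ)
    (a b c d : ℤ) :
    (XM (vl θ t u) (gL z r a b c d) : GLM B6 K) = G θ z r (pm θ t u a b c d) := by
  show X good6t z (mon (vl θ t u) _) * (X good6t r (mon (vl θ t u) _) *
    (X good6t (tau r) (mon (vl θ t u) _) * (X good6t (z + r) (mon (vl θ t u) _) *
    (X good6t (z + tau r) (mon (vl θ t u) _) * 1)))) = _
  unfold G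
  have e : θ (pm θ t u a b c d) ^ 2 * pm θ t u a b c d =
      mon (vl θ t u) ![2 * b + a, 2 * a + 2 * b, 2 * d + c, 2 * c + 2 * d] := by
    rw [th_pm hθ]
    unfold pm
    rw [← mon_add]
    congr 1
    ext i; fin_cases i <;> rfl
  rw [e, th_pm hθ, mul_one]
  simp only [mul_assoc]
  rfl

theorem J1 (hK : (2 : K) = 0) {θ : K ≃+* K} (hθ : ∀ x, θ (θ x) ^ 2 = x) (t u : Kˣ) :
    Q θ (oz 0) (orr 0) (pm θ t u 1 0 0 0) *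
      Q θ (ez 2) (er 2) (pm θ t u 0 0 1 0) =
    Q θ (ez 1) (er 1) (pm θ t u 1 0 1 0) *
      Q θ (ez 2) (er 2) (pm θ t u 0 0 1 0) *
      Q θ (oz 0) (orr 0) (pm θ t u 1 0 0 0) := by
  have h := XM_eq hK (vl θ t u)
    (l := qL (oz 0) (orr 0) 1 0 0 0 ++
      qL (ez 2) (er 2) 0 0 1 0)
    (l' := qL (ez 1) (er 1) 1 0 1 0 ++
      qL (ez 2) (er 2) 0 0 1 0 ++
      qL (oz 0) (orr 0) 1 0 0 0)
    [(1, 0), (3, 0)]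
    [(0, 0), (2, 0), (1, 0), (3, 0), (2, 0), (1, 0), (0, 0), (4, 0), (5, 0), (4, 0), (3, 0), (2, 1), (2, 0), (1, 0), (0, 0), (3, 0), (4, 2), (5, 0), (4, 0), (3, 0), (2, 0), (1, 1), (1, 0), (2, 0), (3, 2), (5, 0), (4, 1), (4, 0), (3, 0), (2, 0), (1, 0), (5, 0), (6, 2)] (by decide +kernel)
  simpa only [XM_append, XM_q hθ, XM_g hθ] using h

theorem J2 (hK : (2 : K) = 0) {θ : K ≃+* K} (hθ : ∀ x, θ (θ x) ^ 2 = x) (t u : Kˣ) :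
    Q θ (ez 0) (er 0) (pm θ t u 1 0 0 0) *
      Q θ (ez 3) (er 3) (pm θ t u 0 0 1 0) =
    Q θ (oz 2) (orr 2) (pm θ t u 1 0 1 0) *
      Q θ (ez 1) (er 1) (pm θ t u 0 1 1 0) *
      Q θ (ez 2) (er 2) (pm θ t u 1 0 0 1) *
      Q θ (ez 3) (er 3) (pm θ t u 0 0 1 0) *
      Q θ (ez 0) (er 0) (pm θ t u 1 0 0 0) := by
  have h := XM_eq hK (vl θ t u)
    (l := qL (ez 0) (er 0) 1 0 0 0 ++
      qL (ez 3) (er 3) 0 0 1 0)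
    (l' := qL (oz 2) (orr 2) 1 0 1 0 ++
      qL (ez 1) (er 1) 0 1 1 0 ++
      qL (ez 2) (er 2) 1 0 0 1 ++
      qL (ez 3) (er 3) 0 0 1 0 ++
      qL (ez 0) (er 0) 1 0 0 0)
    [(3, 0)]
    [(0, 0), (2, 0), (3, 0), (2, 0), (1, 0), (0, 0), (4, 0), (6, 0), (5, 0), (4, 0), (3, 0), (7, 0), (6, 0), (5, 0), (4, 0), (8, 0), (7, 0), (6, 0), (5, 0), (4, 0), (3, 0), (2, 0), (9, 0), (8, 0), (7, 1), (7, 0), (6, 0), (5, 0), (4, 0), (3, 0), (2, 0), (1, 0), (0, 0), (8, 0), (9, 0), (10, 2), (9, 0), (8, 0), (10, 0), (9, 0), (8, 1), (8, 0), (7, 0), (6, 0), (5, 0), (4, 0), (3, 1), (3, 0), (2, 0), (1, 0), (0, 1), (0, 0), (1, 0), (2, 2), (3, 0), (4, 2), (7, 0), (8, 2), (8, 0), (7, 1), (7, 0), (6, 0), (5, 1), (5, 0), (4, 0), (3, 1), (3, 0), (2, 0), (1, 0), (4, 0), (5, 2), (5, 0), (6, 2), (6, 0), (7, 2), (6, 0), (5, 0), (4, 1), (4, 0),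 (3, 0), (2, 1), (2, 0), (3, 0), (4, 2), (4, 0), (5, 2)] (by decide +kernel)
  simpa only [XM_append, XM_q hθ, XM_g hθ] using h

theorem J2p (hK : (2 : K) = 0) {θ : K ≃+* K} (hθ : ∀ x, θ (θ x) ^ 2 = x) (t u : Kˣ) :
    Q θ (ez 7) (er 7) (pm θ t u 1 0 0 0) *
      Q θ (ez 2) (er 2) (pm θ t u 0 0 1 0) =
    Q θ (oz 1) (orr 1) (pm θ t u 1 0 1 0) *
      Q θ (ez 0) (er 0) (pm θ t u 0 1 1 0) *
      Q θ (ez 1) (er 1) (pm θ t u 1 0 0 1) *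
      Q θ (ez 2) (er 2) (pm θ t u 0 0 1 0) *
      Q θ (ez 7) (er 7) (pm θ t u 1 0 0 0) := by
  have h := XM_eq hK (vl θ t u)
    (l := qL (ez 7) (er 7) 1 0 0 0 ++
      qL (ez 2) (er 2) 0 0 1 0)
    (l' := qL (oz 1) (orr 1) 1 0 1 0 ++
      qL (ez 0) (er 0) 0 1 1 0 ++
      qL (ez 1) (er 1) 1 0 0 1 ++
      qL (ez 2) (er 2) 0 0 1 0 ++
      qL (ez 7) (er 7) 1 0 0 0)
    [(2, 1), (2, 0), (3, 0), (4, 0), (3, 0), (2, 0), (5, 0)]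
    [(1, 0), (0, 0), (3, 0), (2, 0), (1, 0), (0, 0), (4, 0), (3, 0), (5, 0), (4, 0), (6, 0), (5, 0), (7, 0), (6, 0), (5, 0), (4, 0), (8, 0), (7, 0), (6, 0), (5, 0), (4, 0), (3, 0), (2, 0), (9, 0), (8, 0), (7, 0), (6, 0), (5, 0), (4, 1), (4, 0), (3, 0), (2, 0), (1, 0), (0, 0), (5, 0), (6, 0), (7, 2), (9, 0), (8, 0), (7, 0), (6, 0), (5, 0), (10, 0), (9, 0), (8, 0), (7, 0), (6, 0), (5, 1), (5, 0), (4, 0), (3, 1), (3, 0), (2, 0), (1, 0), (0, 1), (0, 0), (1, 0), (2, 2), (3, 0), (4, 2), (4, 0), (5, 2), (8, 0), (7, 0), (6, 1), (6, 0), (5, 0), (4, 0), (3, 1), (3, 0), (2, 0), (1, 1), (1, 0), (2, 0), (3, 2), (3, 0), (4, 0), (5, 2), (5, 0), (6, 0), (7, 2), (6, 0), (5, 0), (4, 1), (4, 0), (5, 0), (6, 0), (7, 2)] (by decide +kernel)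
  simpa only [XM_append, XM_q hθ, XM_g hθ] using h

theorem J3 (hK : (2 : K) = 0) {θ : K ≃+* K} (hθ : ∀ x, θ (θ x) ^ 2 = x) (t u : Kˣ) :
    Q θ (ez 7) (er 7) (pm θ t u 0 0 0 0) *
      Q θ (oz 0) (orr 0) (pm θ t u 1 0 0 0) *
      Q θ (oz 2) (orr 2) (pm θ t u 0 0 0 0) *
      Q θ (ez 7) (er 7) (pm θ t u 0 0 0 0) =
    Q θ (oz 0) (orr 0) (pm θ t u 1 0 0 0) *
      Q θ (oz 2) (orr 2) (pm θ t u 0 0 0 0) *
      Q θ (ez 0) (er 0) (pm θ t u 0 0 0 0) := by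
  have h := XM_eq hK (vl θ t u)
    (l := qL (ez 7) (er 7) 0 0 0 0 ++
      qL (oz 0) (orr 0) 1 0 0 0 ++
      qL (oz 2) (orr 2) 0 0 0 0 ++
      qL (ez 7) (er 7) 0 0 0 0)
    (l' := qL (oz 0) (orr 0) 1 0 0 0 ++
      qL (oz 2) (orr 2) 0 0 0 0 ++
      qL (ez 0) (er 0) 0 0 0 0)
    [(0, 0), (1, 0), (6, 0), (7, 0), (8, 1), (8, 0), (7, 0), (6, 0), (5, 0), (4, 0), (3, 0), (2, 2), (7, 0), (8, 0), (7, 0), (6, 0), (5, 1), (5, 0), (4, 0), (3, 0), (2, 0), (1, 0), (0, 2), (4, 0), (8, 0), (7, 0), (6, 1), (6, 0), (5, 0), (4, 0), (3, 0), (2, 0), (1, 0), (0, 2), (5, 0)]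
    [(3, 0), (4, 0), (6, 0), (5, 0), (7, 0), (6, 0), (5, 0), (4, 0)] (by decide +kernel)
  simpa only [XM_append, XM_q hθ, XM_g hθ] using h

theorem J4 (hK : (2 : K) = 0) {θ : K ≃+* K} (hθ : ∀ x, θ (θ x) ^ 2 = x) (t u : Kˣ) :
    Q θ (oz 0) (orr 0) (pm θ t u 1 0 0 0) *
      Q θ (ez 3) (er 3) (pm θ t u 0 0 1 0) =
    Q θ (ez 0) (er 0) (pm θ t u 1 1 1 0) *
      Q θ (oz 1) (orr 1) (pm θ t u 1 1 0 1) *
      G θ (fz 1) (fr 1) (pm θ t u 0 1 1 0) *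
      Q θ (oz 2) (orr 2) (pm θ t u 1 1 2 0) *
      G θ (fz 2) (fr 2) (pm θ t u 1 0 1 0) *
      Q θ (ez 2) (er 2) (pm θ t u 1 1 1 1) *
      Q θ (oz 3) (orr 3) (pm θ t u 1 0 0 1) *
      Q θ (ez 3) (er 3) (pm θ t u 0 0 1 0) *
      Q θ (oz 0) (orr 0) (pm θ t u 1 0 0 0) := by
  have h := XM_eq hK (vl θ t u)
    (l := qL (oz 0) (orr 0) 1 0 0 0 ++
      qL (ez 3) (er 3) 0 0 1 0)
    (l' := qL (ez 0) (er 0) 1 1 1 0 ++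
      qL (oz 1) (orr 1) 1 1 0 1 ++
      gL (fz 1) (fr 1) 0 1 1 0 ++
      qL (oz 2) (orr 2) 1 1 2 0 ++
      gL (fz 2) (fr 2) 1 0 1 0 ++
      qL (ez 2) (er 2) 1 1 1 1 ++
      qL (oz 3) (orr 3) 1 0 0 1 ++
      qL (ez 3) (er 3) 0 0 1 0 ++
      qL (oz 0) (orr 0) 1 0 0 0)
    [(0, 0), (3, 0)]
    [(0, 0), (3, 0), (2, 0), (1, 0), (4, 0), (3, 0), (2, 0), (5, 0), (4, 0), (3, 0), (2, 0), (6, 0), (5, 0), (4, 0), (3, 0), (2, 1), (2, 0), (1, 0), (0, 0), (3, 0), (4, 0), (5, 0), (8, 0), (7, 0), (9, 0), (8, 0), (7, 1), (7, 0), (6, 2), (6, 0), (7, 0), (8, 0), (9, 0), (10, 0), (9, 0), (11, 0), (10, 0), (9, 0), (8, 0), (12, 0), (11, 0), (10, 0), (9, 0), (13, 0), (12, 0), (11, 0), (10, 1), (10, 0), (9, 0), (8, 0), (7, 0), (6, 0), (5, 0), (4, 0), (3, 1), (3, 0), (2, 0), (4, 0), (5, 0), (6, 0), (7, 0), (8, 0), (9, 0), (10, 0), (12,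 0), (11, 0), (13, 0), (12, 2), (12, 0), (13, 2), (12, 0), (11, 0), (10, 0), (9, 0), (8, 1), (8, 0), (7, 1), (7, 0), (6, 0), (5, 0), (4, 0), (3, 1), (3, 0), (2, 1), (2, 0), (1, 0), (3, 0), (5, 0), (4, 0), (6, 0), (5, 0), (7, 0), (6, 0), (8, 0), (7, 0), (10, 0), (12, 0), (11, 0), (13, 0), (12, 0), (14, 0), (13, 2), (13, 2), (13, 0), (12, 0), (11, 0), (10, 0), (14, 0), (13, 0), (12, 1), (12, 0), (11, 0), (10, 1), (10, 0), (9, 0), (8, 2), (9, 0), (10, 0), (12, 0), (11, 0), (13, 0), (12, 0), (14, 0), (13, 0), (15, 0), (14, 0), (13, 0), (16, 0), (15, 2), (15, 0), (14, 0), (13, 0), (12, 0), (11, 1), (11, 0), (10, 0), (9, 1), (9, 0), (8, 0), (10, 0), (11, 0), (13, 0), (12, 0), (14, 0), (13, 0), (15, 0), (14, 0), (16, 0), (15, 0), (17, 2), (16, 0), (15, 0), (14, 2), (15, 0), (14, 0), (13, 0), (16, 0), (15, 0), (14, 0), (13,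 0), (12, 0), (11, 1), (11, 0), (10, 0), (9, 0), (8, 0), (7, 0), (6, 1), (6, 0), (5, 0), (4, 0), (3, 0), (7, 0), (8, 0), (9, 0), (10, 0), (11, 0), (13, 0), (12, 0), (14, 0), (13, 0), (15, 0), (14, 0), (16, 0), (15, 0), (19, 0), (18, 0), (17, 0), (16, 0), (15, 1), (15, 0), (14, 0), (13, 1), (13, 0), (12, 0), (11, 0), (10, 0), (9, 0), (8, 0), (7, 0), (6, 0), (5, 1), (5, 0), (6, 0), (7, 0), (8, 0), (9, 0), (10, 0), (11, 0), (12, 0), (13, 0), (15, 0), (14, 0), (16, 0), (15, 0), (18, 0), (17, 0), (16, 0), (19, 0), (18, 0), (17, 2), (18, 0), (17, 0), (19, 0), (18, 2), (18, 2), (17, 0), (16, 0), (15, 0), (14, 1), (14, 0), (13, 0), (12, 0), (11, 0), (10, 0), (9, 1), (9, 0), (8, 0), (7, 0), (6, 0), (5, 0), (4, 0), (3, 0), (10, 0), (11, 0), (12, 0), (13, 0), (14, 0), (16, 0), (15, 0), (17, 0), (16, 0), (18, 0), (17, 0), (19,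 2), (18, 0), (17, 0), (16, 0), (15, 1), (15, 0), (14, 1), (14, 0), (13, 0), (12, 0), (11, 0), (10, 1), (10, 0), (9, 1), (9, 0), (8, 0), (7, 0), (6, 0), (5, 0), (4, 0), (3, 0), (2, 0), (1, 0), (0, 0), (10, 0), (12, 0), (11, 0), (13, 0), (12, 2), (12, 2), (13, 0), (15, 0), (14, 0), (16, 0), (15, 2), (15, 2), (15, 0), (14, 0), (13, 0), (12, 0), (16, 0), (15, 0), (14, 0), (13, 1), (13, 0), (12, 1), (12, 0), (11, 0), (10, 0), (9, 1), (9, 0), (8, 0), (7, 1), (7, 0), (6, 0), (5, 1), (5, 0), (4, 1), (4, 0), (3, 0), (2, 1), (2, 0), (1, 0), (0, 1), (0, 0), (1, 0), (2, 2), (2, 0), (3, 2), (3, 0), (5, 0), (4, 0), (6, 0), (5, 2), (6, 0), (5, 1), (5, 0), (6, 0), (7, 0), (8, 0), (7, 0), (6, 2), (7, 0), (8, 0), (7, 0), (6, 0), (9, 0), (8, 0), (7, 2), (8, 0), (7, 2), (7, 0), (8, 0), (7, 0), (9, 0), (10, 0), (9, 0), (8, 0), (11, 0),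 (10, 0), (9, 2), (10, 0), (9, 2), (9, 2), (8, 0), (7, 1), (7, 0), (6, 0), (5, 1), (5, 0), (4, 0), (3, 1), (3, 0), (2, 0), (1, 0), (0, 0), (4, 0), (5, 2), (5, 0), (6, 2), (6, 0), (7, 2), (6, 0), (5, 0), (4, 1), (4, 0), (3, 0), (2, 1), (2, 0), (3, 0), (4, 2), (4, 0), (5, 2)] (by decide +kernel)
  simpa only [XM_append, XM_q hθ, XM_g hθ] using h

theorem J6 (hK : (2 : K) = 0) {θ : K ≃+* K} (hθ : ∀ x, θ (θ x) ^ 2 = x) (t u : Kˣ) :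
    G θ (fz 1) (fr 1) (pm θ t u (-1) 1 0 0) *
      G θ (fz 2) (fr 2) (pm θ t u 1 (-1) 0 0) *
      Q θ (oz 3) (orr 3) (pm θ t u 0 (-1) 0 0) *
      Q θ (oz 0) (orr 0) (pm θ t u 2 0 0 0) =
    Q θ (oz 0) (orr 0) (pm θ t u 2 0 0 0) *
      Q θ (oz 2) (orr 2) (pm θ t u 0 0 0 0) *
      G θ (fz 1) (fr 1) (pm θ t u (-1) 1 0 0) *
      G θ (fz 2) (fr 2) (pm θ t u 1 (-1) 0 0) *
      Q θ (oz 3) (orr 3) (pm θ t u 0 (-1) 0 0) := by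
  have h := XM_eq hK (vl θ t u)
    (l := gL (fz 1) (fr 1) (-1) 1 0 0 ++
      gL (fz 2) (fr 2) 1 (-1) 0 0 ++
      qL (oz 3) (orr 3) 0 (-1) 0 0 ++
      qL (oz 0) (orr 0) 2 0 0 0)
    (l' := qL (oz 0) (orr 0) 2 0 0 0 ++
      qL (oz 2) (orr 2) 0 0 0 0 ++
      gL (fz 1) (fr 1) (-1) 1 0 0 ++
      gL (fz 2) (fr 2) 1 (-1) 0 0 ++
      qL (oz 3) (orr 3) 0 (-1) 0 0)
    [(0, 1), (0, 0), (1, 0), (2, 1), (2, 0), (1, 1), (1, 0), (0, 0), (2, 0), (4, 0), (5, 0), (4, 2), (4, 0), (3, 2), (3, 0), (2, 1), (2, 0), (3, 0), (5, 0), (4, 0), (3, 0), (2, 1), (2, 0), (1, 0), (3, 0), (4, 0), (7, 0), (6, 0), (5, 1), (5, 0), (4, 0), (3, 1), (3, 0), (2, 1), (2, 0), (1, 0), (0, 0), (3, 0), (5, 0), (4, 0), (6, 0), (5, 0), (8, 0), (9, 0), (11, 0), (10, 0), (9, 0), (8, 2), (10, 0), (9, 0), (8, 0), (7, 2), (9, 0), (8, 0), (7, 0), (6, 0), (10,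 0), (9, 0), (8, 0), (7, 0), (6, 0), (5, 0), (4, 0), (11, 0), (10, 0), (9, 0), (8, 1), (8, 0), (7, 0), (6, 0), (5, 0), (4, 0), (9, 0), (10, 0), (11, 2), (11, 0), (10, 0), (9, 0), (8, 0), (7, 1), (7, 0), (6, 0), (5, 1), (5, 0), (4, 1), (4, 0), (3, 0), (2, 1), (2, 0), (1, 0), (0, 1), (0, 0), (1, 0), (2, 0), (4, 0), (5, 0), (7, 0), (9, 0), (8, 1), (8, 0), (9, 0), (10, 0), (11, 0), (10, 0), (9, 0), (12, 0), (13, 0), (12, 0), (11, 0), (10, 0), (14, 0), (15, 0), (16, 2), (16, 0), (15, 0), (14, 1), (14, 0), (13, 0), (12, 0), (11, 1), (11, 0), (10, 0), (9, 1), (9, 0), (8, 0), (7, 1), (7, 0), (6, 0), (5, 0), (4, 0), (3, 0), (2, 1), (2, 0), (1, 0), (0, 0), (3, 0), (4, 2), (7, 0), (8, 0), (10, 0), (9, 1), (9, 0), (10, 0), (11, 0), (12, 0), (11, 0), (10, 2), (11, 0), (12, 0), (11, 0), (10, 0), (13, 0), (12, 0), (11, 2), (12, 0),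 (11, 2), (11, 0), (12, 0), (11, 0), (13, 0), (12, 2), (13, 0), (12, 0), (11, 1), (11, 0), (10, 0), (9, 1), (9, 0), (8, 1), (8, 0), (7, 0), (6, 0), (5, 1), (5, 0), (4, 0), (3, 0), (2, 0), (1, 0), (0, 0), (6, 0), (7, 2), (8, 0), (10, 0), (9, 1), (9, 0), (10, 0), (11, 0), (12, 0), (11, 2), (11, 0), (12, 0), (11, 0), (13, 2)]
    [(0, 0), (1, 0), (0, 0), (3, 0), (4, 0), (3, 0), (5, 0), (4, 0), (3, 0), (6, 0), (5, 0), (4, 0), (3, 1), (3, 0), (4, 0), (5, 0), (6, 0), (8, 0), (7, 1), (7, 0), (6, 0), (5, 0), (4, 1), (4, 0), (3, 0), (5, 0), (6, 0), (7, 0), (9, 0), (10, 0), (11, 0), (10, 0), (9, 2), (10, 0), (9, 0), (8, 2), (9, 0), (8, 0), (7, 0), (6, 0), (5, 1), (5, 0), (6, 0), (7, 0), (8, 0), (9, 2), (9, 0), (8, 0), (7, 0), (6, 0), (5, 1), (5, 0), (4, 0), (6, 0), (7, 0), (8, 0), (9, 0), (11, 0), (10, 1), (10, 0), (9, 0), (8,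 0), (7, 0), (6, 1), (6, 0), (5, 1), (5, 0), (4, 0), (3, 0), (6, 0), (8, 0), (7, 0), (9, 0), (8, 0), (10, 0), (9, 0), (11, 0), (10, 2), (11, 0), (13, 0), (12, 0), (11, 2), (12, 0), (11, 0), (10, 2), (11, 0), (10, 0), (9, 0), (12, 0), (11, 0), (10, 1), (10, 0), (9, 0), (8, 0), (7, 0), (11, 0), (12, 2), (12, 0), (11, 0), (10, 0), (9, 0), (8, 0), (7, 0)] (by decide +kernel)
  simpa only [XM_append, XM_q hθ, XM_g hθ] using h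

theorem C_x2_g1 (hK : (2 : K) = 0) {θ : K ≃+* K} (hθ : ∀ x, θ (θ x) ^ 2 = x) (t u : Kˣ) :
    Q θ (oz 2) (orr 2) (pm θ t u 1 0 0 0) *
      G θ (fz 1) (fr 1) (pm θ t u 0 0 1 0) =
    G θ (fz 1) (fr 1) (pm θ t u 0 0 1 0) *
      Q θ (oz 2) (orr 2) (pm θ t u 1 0 0 0) := by
  have h := XM_eq hK (vl θ t u)
    (l := qL (oz 2) (orr 2) 1 0 0 0 ++
      gL (fz 1) (fr 1) 0 0 1 0)
    (l' := gL (fz 1) (fr 1) 0 0 1 0 ++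
      qL (oz 2) (orr 2) 1 0 0 0)
    [(0, 0), (2, 0), (1, 0), (0, 0), (3, 0), (2, 0), (4, 0), (3, 0), (5, 0), (6, 0)]
    [(4, 0), (3, 0), (5, 0), (4, 0), (3, 0), (2, 0), (1, 0)] (by decide +kernel)
  simpa only [XM_append, XM_q hθ, XM_g hθ] using h

theorem C_z1_g1 (hK : (2 : K) = 0) {θ : K ≃+* K} (hθ : ∀ x, θ (θ x) ^ 2 = x) (t u : Kˣ) :
    Q θ (ez 1) (er 1) (pm θ t u 1 0 0 0) *
      G θ (fz 1) (fr 1) (pm θ t u 0 0 1 0) =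
    G θ (fz 1) (fr 1) (pm θ t u 0 0 1 0) *
      Q θ (ez 1) (er 1) (pm θ t u 1 0 0 0) := by
  have h := XM_eq hK (vl θ t u)
    (l := qL (ez 1) (er 1) 1 0 0 0 ++
      gL (fz 1) (fr 1) 0 0 1 0)
    (l' := gL (fz 1) (fr 1) 0 0 1 0 ++
      qL (ez 1) (er 1) 1 0 0 0)
    [(0, 0), (1, 0), (2, 0), (1, 0), (0, 0), (3, 0), (2, 1), (2, 0), (1, 0), (3, 0), (4, 0), (5, 0), (4, 0), (3, 0), (2, 1), (2, 0), (3, 0), (4, 0), (5, 0), (6, 2), (5, 0), (4, 0), (3, 0), (6, 0), (5, 0)]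
    [(5, 0), (4, 0), (6, 0)] (by decide +kernel)
  simpa only [XM_append, XM_q hθ, XM_g hθ] using h

theorem C_x0_x6 (hK : (2 : K) = 0) {θ : K ≃+* K} (hθ : ∀ x, θ (θ x) ^ 2 = x) (t u : Kˣ) :
    Q θ (oz 0) (orr 0) (pm θ t u 1 0 0 0) *
      Q θ (oz 6) (orr 6) (pm θ t u 0 0 1 0) =
    Q θ (oz 6) (orr 6) (pm θ t u 0 0 1 0) *
      Q θ (oz 0) (orr 0) (pm θ t u 1 0 0 0) := by
  have h := XM_eq hK (vl θ t u)
    (l := qL (oz 0) (orr 0) 1 0 0 0 ++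
      qL (oz 6) (orr 6) 0 0 1 0)
    (l' := qL (oz 6) (orr 6) 0 0 1 0 ++
      qL (oz 0) (orr 0) 1 0 0 0)
    [(4, 0)]
    [(1, 0), (2, 0), (1, 0), (0, 0), (3, 1), (3, 0), (2, 0), (1, 0), (4, 0), (5, 0), (4, 0), (3, 1), (3, 0), (2, 0), (4, 0), (5, 0), (6, 2)] (by decide +kernel)
  simpa only [XM_append, XM_q hθ, XM_g hθ] using h

theorem C_x4_x6 (hK : (2 : K) = 0) {θ : K ≃+* K} (hθ : ∀ x, θ (θ x) ^ 2 = x) (t u : Kˣ) :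
    Q θ (oz 4) (orr 4) (pm θ t u 1 0 0 0) *
      Q θ (oz 6) (orr 6) (pm θ t u 0 0 1 0) =
    Q θ (oz 6) (orr 6) (pm θ t u 0 0 1 0) *
      Q θ (oz 4) (orr 4) (pm θ t u 1 0 0 0) := by
  have h := XM_eq hK (vl θ t u)
    (l := qL (oz 4) (orr 4) 1 0 0 0 ++
      qL (oz 6) (orr 6) 0 0 1 0)
    (l' := qL (oz 6) (orr 6) 0 0 1 0 ++
      qL (oz 4) (orr 4) 1 0 0 0)
    [(2, 0), (1, 0)]
    [(2, 0), (1, 0), (0, 0), (3, 1), (3, 0), (2, 0), (4, 0), (5, 0), (4, 0), (3, 1), (3, 0), (4, 0), (5, 0), (6, 2)] (by decide +kernel)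
  simpa only [XM_append, XM_q hθ, XM_g hθ] using h

theorem C_x0_x2 (hK : (2 : K) = 0) {θ : K ≃+* K} (hθ : ∀ x, θ (θ x) ^ 2 = x) (t u : Kˣ) :
    Q θ (oz 0) (orr 0) (pm θ t u 1 0 0 0) *
      Q θ (oz 2) (orr 2) (pm θ t u 0 0 1 0) =
    Q θ (oz 2) (orr 2) (pm θ t u 0 0 1 0) *
      Q θ (oz 0) (orr 0) (pm θ t u 1 0 0 0) := by
  have h := XM_eq hK (vl θ t u)
    (l := qL (oz 0) (orr 0) 1 0 0 0 ++
      qL (oz 2) (orr 2) 0 0 1 0)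
    (l' := qL (oz 2) (orr 2) 0 0 1 0 ++
      qL (oz 0) (orr 0) 1 0 0 0)
    [(2, 0), (1, 0), (0, 0), (3, 1), (3, 0), (2, 0), (1, 0), (4, 0), (5, 0), (4, 0), (3, 1), (3, 0), (4, 0), (5, 0), (6, 2)]
    [(2, 0)] (by decide +kernel)
  simpa only [XM_append, XM_q hθ, XM_g hθ] using h

theorem C_x0_z0 (hK : (2 : K) = 0) {θ : K ≃+* K} (hθ : ∀ x, θ (θ x) ^ 2 = x) (t u : Kˣ) :
    Q θ (oz 0) (orr 0) (pm θ t u 1 0 0 0) *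
      Q θ (ez 0) (er 0) (pm θ t u 0 0 1 0) =
    Q θ (ez 0) (er 0) (pm θ t u 0 0 1 0) *
      Q θ (oz 0) (orr 0) (pm θ t u 1 0 0 0) := by
  have h := XM_eq hK (vl θ t u)
    (l := qL (oz 0) (orr 0) 1 0 0 0 ++
      qL (ez 0) (er 0) 0 0 1 0)
    (l' := qL (ez 0) (er 0) 0 0 1 0 ++
      qL (oz 0) (orr 0) 1 0 0 0)
    []
    [(2, 0), (1, 0), (0, 0), (3, 0), (2, 0), (1, 0), (4, 0), (3, 0), (2, 0)] (by decide +kernel)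
  simpa only [XM_append, XM_q hθ, XM_g hθ] using h

theorem C_x0_z1 (hK : (2 : K) = 0) {θ : K ≃+* K} (hθ : ∀ x, θ (θ x) ^ 2 = x) (t u : Kˣ) :
    Q θ (oz 0) (orr 0) (pm θ t u 1 0 0 0) *
      Q θ (ez 1) (er 1) (pm θ t u 0 0 1 0) =
    Q θ (ez 1) (er 1) (pm θ t u 0 0 1 0) *
      Q θ (oz 0) (orr 0) (pm θ t u 1 0 0 0) := by
  have h := XM_eq hK (vl θ t u)
    (l := qL (oz 0) (orr 0) 1 0 0 0 ++
      qL (ez 1) (er 1) 0 0 1 0)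
    (l' := qL (ez 1) (er 1) 0 0 1 0 ++
      qL (oz 0) (orr 0) 1 0 0 0)
    [(1, 0), (2, 0), (1, 0), (3, 0), (2, 0), (4, 0)]
    [(2, 0), (1, 0), (0, 0), (4, 0), (3, 0)] (by decide +kernel)
  simpa only [XM_append, XM_q hθ, XM_g hθ] using h

theorem C_x0_z7 (hK : (2 : K) = 0) {θ : K ≃+* K} (hθ : ∀ x, θ (θ x) ^ 2 = x) (t u : Kˣ) :
    Q θ (oz 0) (orr 0) (pm θ t u 1 0 0 0) *
      Q θ (ez 7) (er 7) (pm θ t u 0 0 1 0) =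
    Q θ (ez 7) (er 7) (pm θ t u 0 0 1 0) *
      Q θ (oz 0) (orr 0) (pm θ t u 1 0 0 0) := by
  have h := XM_eq hK (vl θ t u)
    (l := qL (oz 0) (orr 0) 1 0 0 0 ++
      qL (ez 7) (er 7) 0 0 1 0)
    (l' := qL (ez 7) (er 7) 0 0 1 0 ++
      qL (oz 0) (orr 0) 1 0 0 0)
    [(4, 0), (3, 0), (2, 0)]
    [(1, 0), (0, 0), (2, 0), (1, 0), (0, 0), (3, 0), (2, 0), (1, 0), (4, 0), (3, 0)] (by decide +kernel)
  simpa only [XM_append, XM_q hθ, XM_g hθ] using h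

theorem C_x2_z0 (hK : (2 : K) = 0) {θ : K ≃+* K} (hθ : ∀ x, θ (θ x) ^ 2 = x) (t u : Kˣ) :
    Q θ (oz 2) (orr 2) (pm θ t u 1 0 0 0) *
      Q θ (ez 0) (er 0) (pm θ t u 0 0 1 0) =
    Q θ (ez 0) (er 0) (pm θ t u 0 0 1 0) *
      Q θ (oz 2) (orr 2) (pm θ t u 1 0 0 0) := by
  have h := XM_eq hK (vl θ t u)
    (l := qL (oz 2) (orr 2) 1 0 0 0 ++
      qL (ez 0) (er 0) 0 0 1 0)
    (l' := qL (ez 0) (er 0) 0 0 1 0 ++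
      qL (oz 2) (orr 2) 1 0 0 0)
    [(2, 0), (1, 0), (0, 0), (3, 0), (2, 0), (1, 0), (4, 0), (3, 0), (2, 0)]
    [] (by decide +kernel)
  simpa only [XM_append, XM_q hθ, XM_g hθ] using h

theorem C_x2_z3 (hK : (2 : K) = 0) {θ : K ≃+* K} (hθ : ∀ x, θ (θ x) ^ 2 = x) (t u : Kˣ) :
    Q θ (oz 2) (orr 2) (pm θ t u 1 0 0 0) *
      Q θ (ez 3) (er 3) (pm θ t u 0 0 1 0) =
    Q θ (ez 3) (er 3) (pm θ t u 0 0 1 0) *
      Q θ (oz 2) (orr 2) (pm θ t u 1 0 0 0) := by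
  have h := XM_eq hK (vl θ t u)
    (l := qL (oz 2) (orr 2) 1 0 0 0 ++
      qL (ez 3) (er 3) 0 0 1 0)
    (l' := qL (ez 3) (er 3) 0 0 1 0 ++
      qL (oz 2) (orr 2) 1 0 0 0)
    [(2, 0), (1, 0), (3, 0), (2, 0), (1, 0), (4, 0)]
    [(0, 0), (2, 0), (1, 0), (0, 0), (3, 0)] (by decide +kernel)
  simpa only [XM_append, XM_q hθ, XM_g hθ] using h

theorem C_x2_z1 (hK : (2 : K) = 0) {θ : K ≃+* K} (hθ : ∀ x, θ (θ x) ^ 2 = x) (t u : Kˣ) :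
    Q θ (oz 2) (orr 2) (pm θ t u 1 0 0 0) *
      Q θ (ez 1) (er 1) (pm θ t u 0 0 1 0) =
    Q θ (ez 1) (er 1) (pm θ t u 0 0 1 0) *
      Q θ (oz 2) (orr 2) (pm θ t u 1 0 0 0) := by
  have h := XM_eq hK (vl θ t u)
    (l := qL (oz 2) (orr 2) 1 0 0 0 ++
      qL (ez 1) (er 1) 0 0 1 0)
    (l' := qL (ez 1) (er 1) 0 0 1 0 ++
      qL (oz 2) (orr 2) 1 0 0 0)
    [(2, 0), (3, 0), (2, 0), (1, 0), (0, 0)]
    [(0, 0), (2, 0), (1, 0), (3, 0), (2, 0), (4, 0)] (by decide +kernel)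
  simpa only [XM_append, XM_q hθ, XM_g hθ] using h

theorem C_x2_z2 (hK : (2 : K) = 0) {θ : K ≃+* K} (hθ : ∀ x, θ (θ x) ^ 2 = x) (t u : Kˣ) :
    Q θ (oz 2) (orr 2) (pm θ t u 1 0 0 0) *
      Q θ (ez 2) (er 2) (pm θ t u 0 0 1 0) =
    Q θ (ez 2) (er 2) (pm θ t u 0 0 1 0) *
      Q θ (oz 2) (orr 2) (pm θ t u 1 0 0 0) := by
  have h := XM_eq hK (vl θ t u)
    (l := qL (oz 2) (orr 2) 1 0 0 0 ++
      qL (ez 2) (er 2) 0 0 1 0)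
    (l' := qL (ez 2) (er 2) 0 0 1 0 ++
      qL (oz 2) (orr 2) 1 0 0 0)
    [(3, 0), (2, 0)]
    [(0, 0), (2, 0), (1, 0), (0, 0), (3, 0), (2, 0), (1, 0), (4, 0), (3, 0)] (by decide +kernel)
  simpa only [XM_append, XM_q hθ, XM_g hθ] using h

theorem C_z1_z2 (hK : (2 : K) = 0) {θ : K ≃+* K} (hθ : ∀ x, θ (θ x) ^ 2 = x) (t u : Kˣ) :
    Q θ (ez 1) (er 1) (pm θ t u 1 0 0 0) *
      Q θ (ez 2) (er 2) (pm θ t u 0 0 1 0) =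
    Q θ (ez 2) (er 2) (pm θ t u 0 0 1 0) *
      Q θ (ez 1) (er 1) (pm θ t u 1 0 0 0) := by
  have h := XM_eq hK (vl θ t u)
    (l := qL (ez 1) (er 1) 1 0 0 0 ++
      qL (ez 2) (er 2) 0 0 1 0)
    (l' := qL (ez 2) (er 2) 0 0 1 0 ++
      qL (ez 1) (er 1) 1 0 0 0)
    [(0, 0), (2, 0), (1, 0), (3, 0), (2, 0), (1, 0), (4, 0), (3, 0)]
    [(0, 0), (3, 0), (2, 0), (1, 0), (0, 0)] (by decide +kernel)
  simpa only [XM_append, XM_q hθ, XM_g hθ] using h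

theorem C_x6_z7 (hK : (2 : K) = 0) {θ : K ≃+* K} (hθ : ∀ x, θ (θ x) ^ 2 = x) (t u : Kˣ) :
    Q θ (oz 6) (orr 6) (pm θ t u 1 0 0 0) *
      Q θ (ez 7) (er 7) (pm θ t u 0 0 1 0) =
    Q θ (ez 7) (er 7) (pm θ t u 0 0 1 0) *
      Q θ (oz 6) (orr 6) (pm θ t u 1 0 0 0) := by
  have h := XM_eq hK (vl θ t u)
    (l := qL (oz 6) (orr 6) 1 0 0 0 ++
      qL (ez 7) (er 7) 0 0 1 0)
    (l' := qL (ez 7) (er 7) 0 0 1 0 ++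
      qL (oz 6) (orr 6) 1 0 0 0)
    [(2, 0), (1, 0), (0, 0), (3, 0), (2, 0), (4, 0), (3, 0)]
    [(2, 0), (1, 0)] (by decide +kernel)
  simpa only [XM_append, XM_q hθ, XM_g hθ] using h

theorem C_x4_x2 (hK : (2 : K) = 0) {θ : K ≃+* K} (hθ : ∀ x, θ (θ x) ^ 2 = x) (t u : Kˣ) :
    Q θ (oz 4) (orr 4) (pm θ t u 1 0 0 0) *
      Q θ (oz 2) (orr 2) (pm θ t u 0 0 1 0) =
    Q θ (oz 2) (orr 2) (pm θ t u 0 0 1 0) *
      Q θ (oz 4) (orr 4) (pm θ t u 1 0 0 0) := by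
  have h := XM_eq hK (vl θ t u)
    (l := qL (oz 4) (orr 4) 1 0 0 0 ++
      qL (oz 2) (orr 2) 0 0 1 0)
    (l' := qL (oz 2) (orr 2) 0 0 1 0 ++
      qL (oz 4) (orr 4) 1 0 0 0)
    [(2, 0), (1, 0), (4, 0), (3, 1), (3, 0), (4, 0), (5, 0)]
    [(1, 0), (2, 0), (1, 0), (0, 0), (3, 1), (3, 0), (2, 0), (4, 0), (5, 0), (4, 0)] (by decide +kernel)
  simpa only [XM_append, XM_q hθ, XM_g hθ] using h

theorem C_z0_z1 (hK : (2 : K) = 0) {θ : K ≃+* K} (hθ : ∀ x, θ (θ x) ^ 2 = x) (t u : Kˣ) :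
    Q θ (ez 0) (er 0) (pm θ t u 1 0 0 0) *
      Q θ (ez 1) (er 1) (pm θ t u 0 0 1 0) =
    Q θ (ez 1) (er 1) (pm θ t u 0 0 1 0) *
      Q θ (ez 0) (er 0) (pm θ t u 1 0 0 0) := by
  have h := XM_eq hK (vl θ t u)
    (l := qL (ez 0) (er 0) 1 0 0 0 ++
      qL (ez 1) (er 1) 0 0 1 0)
    (l' := qL (ez 1) (er 1) 0 0 1 0 ++
      qL (ez 0) (er 0) 1 0 0 0)
    [(0, 0), (3, 0), (2, 0), (1, 0)]
    [(0, 0), (2, 0), (1, 0), (3, 0), (2, 0), (1, 0), (0, 0), (4, 0), (3, 0)] (by decide +kernel)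
  simpa only [XM_append, XM_q hθ, XM_g hθ] using h

end H41R
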