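import Mathlib
import Pool.Agent.H.MP_0335f8_al.helper41r.RId

/-!
# The sum formula for the root elements of the second kind
-/

namespace H41R

open H41Chev

variable {K : Type*} [Field K]

/-- the list of the root element of a sum -/
def sumL : XL :=
    [(fz 1, ![0, 2, 0, 0]),
      (fz 1, ![0, 0, 0, 2]),
      (fr 1, ![1, 0, 0, 0]),
      (fr 1, ![0, 0, 1, 0]),
      (tau (fr 1), ![1, 0, 0, 0]),
      (tau (fr 1), ![0, 0, 1, 0]),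
      (fz 1 + fr 1, ![1, 2, 0, 0]),
      (fz 1 + fr 1, ![0, 2, 1, 0]),
      (fz 1 + fr 1, ![1, 0, 0, 2]),
      (fz 1 + fr 1, ![0, 0, 1, 2]),
      (fz 1 + tau (fr 1), ![1, 2, 0, 0]),
      (fz 1 + tau (fr 1), ![0, 2, 1, 0]),
      (fz 1 + tau (fr 1), ![1, 0, 0, 2]),
      (fz 1 + tau (fr 1), ![0, 0, 1, 2])]

theorem G_sum (hK : (2 : K) = 0) (θ : K ≃+* K) (t u : Kˣ) :
    G θ (fz 1) (fr 1) ((t : K) + u) = XM (vl θ t u) sumL := by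
  have e1 : θ ((t : K) + u) ^ 2 = θ (t : K) ^ 2 + θ (u : K) ^ 2 := by
    rw [map_add]; linear_combination (θ (t : K) * θ (u : K)) * hK
  have e2 : θ ((t : K) + u) ^ 2 * ((t : K) + u) = θ (t : K) ^ 2 * t + θ (t : K) ^ 2 * u +
      θ (u : K) ^ 2 * t + θ (u : K) ^ 2 * u := by rw [e1]; ring
  have m : ∀ a b c d : ℤ, mon (vl θ t u) ![a, b, c, d] =
      (t : K) ^ a * (θ t) ^ b * (u : K) ^ c * (θ u) ^ d := fun a b c d => by rw [mon_eq]; rfl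
  have z2 : ∀ x : K, x ^ (2 : ℤ) = x ^ 2 := fun x => by exact_mod_cast zpow_natCast x 2
  unfold G sumL
  rw [e2, e1]
  simp only [XM, m, z2, zpow_zero, zpow_one, one_mul, mul_one, ← X_add]
  rw [mul_comm (t : K) (θ (t : K) ^ 2), mul_comm (t : K) (θ (u : K) ^ 2),
    mul_comm (u : K) (θ (u : K) ^ 2)]
  simp only [mul_assoc]

theorem J5 (hK : (2 : K) = 0) {θ : K ≃+* K} (hθ : ∀ x, θ (θ x) ^ 2 = x) (t u : Kˣ) :
    G θ (fz 1) (fr 1) (pm θ t u 1 0 0 0) * G θ (fz 1) (fr 1) (pm θ t u 0 0 1 0) =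
      G θ (fz 1) (fr 1) ((t : K) + u) * Q θ (ez 1) (er 1) (pm θ t u 0 1 1 0) := by
  have h := XM_eq hK (vl θ t u)
    (l := gL (fz 1) (fr 1) 1 0 0 0 ++ gL (fz 1) (fr 1) 0 0 1 0)
    (l' := sumL ++ qL (ez 1) (er 1) 0 1 1 0)
    [(4, 0), (3, 0), (2, 1), (2, 0), (1, 1), (1, 0), (0, 0), (2, 0), (4, 0), (3, 1), (3, 0), (4, 0), (5, 0), (6, 0), (5, 0), (7, 0), (8, 0), (7, 1), (7, 0), (6, 1), (6, 0), (5, 0), (4, 0), (3, 0), (2, 0), (7, 0), (9, 0), (8, 0), (11, 0), (10, 0), (9, 0), (8, 0), (7, 0), (6, 1), (6, 0), (5, 1), (5, 0), (4, 0), (6, 0), (8, 0), (7, 0), (9, 0), (8, 0), (10, 0), (9, 0), (11, 0), (10, 2), (10, 2), (10, 0), (9, 0), (8, 0), (7, 0), (6, 0), (11, 0), (10, 0), (9, 0)]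
    [(0, 0), (2, 0), (4, 0), (6, 0), (7, 0), (8, 0), (7, 0), (6, 0), (10, 0), (11, 0), (12, 0), (11, 0), (10, 0), (14, 0), (13, 0), (12, 0), (11, 0), (10, 0), (9, 0), (8, 0), (7, 2), (13, 0), (12, 0), (11, 0), (10, 2)] (by decide +kernel)
  rw [G_sum hK]
  simpa only [XM_append, XM_q hθ, XM_g hθ] using h

end H41R
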