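import Mathlib
import Pool.Agent.H.MP_0335f8_al.helper41r.RId5

/-!
# Generation of the Ree group
-/

namespace H41R

open H41Chev

variable {K : Type*} [Field K] {θ : K ≃+* K} {L : Subgroup (GLM B6 K)}

/-- the root elements of the odd directions -/
def xo (θ : K ≃+* K) (i : Fin 8) (t : K) : GLM B6 K := Q θ (oz i) (orr i) t

/-- the central root elements of the even directions -/
def ze (θ : K ≃+* K) (i : Fin 8) (t : K) : GLM B6 K := Q θ (ez i) (er i) t

/-- the other root elements of the even directions -/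
def ge (θ : K ≃+* K) (i : Fin 8) (t : K) : GLM B6 K := G θ (fz i) (fr i) t

/-- the word of the reflection of an odd direction -/
def wk (i : Fin 8) : Wd 6 := [(true, oz i), (true, orr i), (true, tau (orr i))]

theorem wk_ok : ∀ i, wok B6 (wk i) := by decide +kernel

theorem XXX (hK : (2 : K) = 0) {w : Wd 6} (hw : wok B6 w) (a b c : Fin 6 → ℤ) (x y z : K) :
    (NN good6t w * (X good6t a x * X good6t b y * X good6t c z) : GLM B6 K) =
    X good6t (wv B6 w a) x * X good6t (wv B6 w b) y * X good6t (wv B6 w c) z * NN good6t w := by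
  rw [← mul_assoc, ← mul_assoc, NN_X good6t hw, mul_assoc (X good6t _ _) (NN good6t w),
    NN_X good6t hw, ← mul_assoc, mul_assoc (X good6t _ _ * X good6t _ _) (NN good6t w),
    NN_X good6t hw, cast_one (ws_sq w _) hK, cast_one (ws_sq w _) hK, cast_one (ws_sq w _) hK,
    one_mul, one_mul, one_mul]
  simp only [mul_assoc]

/-- the image of a pair of roots under a word -/
def Im (w : Wd 6) (z r z' r' : Fin 6 → ℤ) : Prop :=
  wv B6 w z = z' ∧ ((wv B6 w r = r' ∧ wv B6 w (tau r) = tau r') ∨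
    (wv B6 w r = tau r' ∧ wv B6 w (tau r) = r' ∧ ip B6 r' (tau r') = 0))

instance (w : Wd 6) (z r z' r' : Fin 6 → ℤ) : Decidable (Im w z r z' r') := by
  unfold Im; infer_instance

theorem NN_Q (hK : (2 : K) = 0) {w : Wd 6} (hw : wok B6 w) {z r z' r' : Fin 6 → ℤ} (t : K)
    (e : Im w z r z' r') : NN good6t w * Q θ z r t = Q θ z' r' t * NN good6t w := by
  obtain ⟨e1, ⟨e2, e3⟩ | ⟨e2, e3, e4⟩⟩ := e
  · unfold Q
    rw [XXX hK hw, e1, e2, e3]
  · rw [← Q_tau θ e4]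
    unfold Q
    rw [XXX hK hw, e1, e2, e3, H41Chev.flip_flip]

theorem NN_G (hK : (2 : K) = 0) {w : Wd 6} (hw : wok B6 w) {z r z' r' : Fin 6 → ℤ} (t : K)
    (e : Im w z r z' r' ∧ ip B6 (z' + r') (z' + tau r') = 0) :
    NN good6t w * G θ z r t = G θ z' r' t * NN good6t w := by
  obtain ⟨⟨e1, ⟨e2, e3⟩ | ⟨e2, e3, e4⟩⟩, e5⟩ := e
  · unfold G
    rw [mul_assoc, ← mul_assoc (NN good6t w), XXX hK hw, mul_assoc _ (NN good6t w),
      ← mul_assoc (NN good6t w), NN_X good6t hw, mul_assoc (X good6t _ _) (NN good6t w),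
      NN_X good6t hw, cast_one (ws_sq w _) hK, cast_one (ws_sq w _) hK, one_mul,
      wv_add, wv_add, e1, e2, e3]
    simp only [mul_assoc]
  · rw [← G_tau θ e4 e5]
    unfold G
    rw [mul_assoc, ← mul_assoc (NN good6t w), XXX hK hw, mul_assoc _ (NN good6t w),
      ← mul_assoc (NN good6t w), NN_X good6t hw, mul_assoc (X good6t _ _) (NN good6t w),
      NN_X good6t hw, cast_one (ws_sq w _) hK, cast_one (ws_sq w _) hK, one_mul,
      wv_add, wv_add, e1, e2, e3, H41Chev.flip_flip]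
    simp only [mul_assoc]

theorem im_x : ∀ k i : Fin 8, Im (wk k) (oz i) (orr i) (oz (2 * k + 4 - i)) (orr (2 * k + 4 - i)) := by
  decide +kernel

theorem im_z : ∀ k i : Fin 8, Im (wk k) (ez i) (er i) (ez (2 * k + 3 - i)) (er (2 * k + 3 - i)) := by
  decide +kernel

theorem im_g : ∀ k i : Fin 8, Im (wk k) (fz i) (fr i) (fz (2 * k + 3 - i)) (fr (2 * k + 3 - i)) ∧
    ip B6 (fz (2 * k + 3 - i) + fr (2 * k + 3 - i)) (fz (2 * k + 3 - i) + tau (fr (2 * k + 3 - i)))
      = 0 := by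
  decide +kernel

theorem N_x (hK : (2 : K) = 0) (k i : Fin 8) (t : K) :
    NN good6t (wk k) * xo θ i t = xo θ (2 * k + 4 - i) t * NN good6t (wk k) :=
  NN_Q hK (wk_ok k) t (im_x k i)

theorem N_z (hK : (2 : K) = 0) (k i : Fin 8) (t : K) :
    NN good6t (wk k) * ze θ i t = ze θ (2 * k + 3 - i) t * NN good6t (wk k) :=
  NN_Q hK (wk_ok k) t (im_z k i)

theorem N_g (hK : (2 : K) = 0) (k i : Fin 8) (t : K) :
    NN good6t (wk k) * ge θ i t = ge θ (2 * k + 3 - i) t * NN good6t (wk k) :=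
  NN_G hK (wk_ok k) t (im_g k i)

theorem of_conj {n a b : GLM B6 K} (e : n * a = b * n) (hn : n ∈ L) (ha : a ∈ L) : b ∈ L := by
  have := L.mul_mem (L.mul_mem hn ha) (L.inv_mem hn)
  rwa [e, mul_assoc, mul_inv_cancel, mul_one] at this

/-- the commutator relation, with membership -/
theorem of_com {a b c : GLM B6 K} (e : a * b = c * (b * a)) (ha : a ∈ L) (hb : b ∈ L) : c ∈ L := by
  have := L.mul_mem (L.mul_mem ha hb) (L.inv_mem (L.mul_mem hb ha))
  rwa [e, mul_assoc, mul_inv_cancel, mul_one] at this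

theorem Q_zero (θ : K ≃+* K) (z r : Fin 6 → ℤ) : (Q θ z r 0 : GLM B6 K) = 1 := by
  unfold Q
  rw [map_zero, zero_pow two_ne_zero, X_zero, X_zero, X_zero, one_mul, one_mul]

theorem G_zero (θ : K ≃+* K) (z r : Fin 6 → ℤ) : (G θ z r 0 : GLM B6 K) = 1 := by
  unfold G
  rw [map_zero, zero_pow two_ne_zero, mul_zero, X_zero, X_zero, X_zero, X_zero, X_zero, one_mul,
    one_mul, one_mul, one_mul]

theorem Q_add (hK : (2 : K) = 0) (θ : K ≃+* K) {z r : Fin 6 → ℤ}
    (h : 0 ≤ ip B6 z r ∧ 0 ≤ ip B6 z (tau r) ∧ 0 ≤ ip B6 r (tau r)) (s t : K) :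
    Q θ z r s * Q θ z r t = Q θ z r (s + t) := by
  obtain ⟨h1, h2, h3⟩ := h
  have c1 := X_comm (K := K) good6t (u := r) (v := z) (by rw [ip_comm good6t]; exact h1) s
    (θ t ^ 2)
  have c2 := X_comm (K := K) good6t (u := tau r) (v := z) (by rw [ip_comm good6t]; exact h2) s
    (θ t ^ 2)
  have c3 := X_comm (K := K) good6t (u := tau r) (v := r) (by rw [ip_comm good6t]; exact h3) s t
  unfold Q
  rw [show θ (s + t) ^ 2 = θ s ^ 2 + θ t ^ 2 by
    rw [map_add]; linear_combination (θ s * θ t) * hK, ← X_add good6t z, ← X_add good6t r,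
    ← X_add good6t (tau r)]
  generalize (X good6t z (θ s ^ 2) : GLM B6 K) = a0 at *
  generalize (X good6t z (θ t ^ 2) : GLM B6 K) = b0 at *
  generalize (X good6t r s : GLM B6 K) = a1 at *
  generalize (X good6t r t : GLM B6 K) = b1 at *
  generalize (X good6t (tau r) s : GLM B6 K) = a2 at *
  generalize (X good6t (tau r) t : GLM B6 K) = b2 at *
  calc a0 * a1 * a2 * (b0 * b1 * b2) = a0 * a1 * (a2 * b0) * b1 * b2 := by group
    _ = a0 * (a1 * b0) * (a2 * b1) * b2 := by rw [c2]; group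
    _ = _ := by rw [c1, c3]; group

theorem ad_x : ∀ i, 0 ≤ ip B6 (oz i) (orr i) ∧ 0 ≤ ip B6 (oz i) (tau (orr i)) ∧
    0 ≤ ip B6 (orr i) (tau (orr i)) := by decide +kernel

theorem ad_z : ∀ i, 0 ≤ ip B6 (ez i) (er i) ∧ 0 ≤ ip B6 (ez i) (tau (er i)) ∧
    0 ≤ ip B6 (er i) (tau (er i)) := by decide +kernel

theorem xo_add (hK : (2 : K) = 0) (i : Fin 8) (s t : K) : xo θ i s * xo θ i t = xo θ i (s + t) :=
  Q_add hK θ (ad_x i) s t

theorem ze_add (hK : (2 : K) = 0) (i : Fin 8) (s t : K) : ze θ i s * ze θ i t = ze θ i (s + t) :=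
  Q_add hK θ (ad_z i) s t

theorem xo_two (hK : (2 : K) = 0) (i : Fin 8) (t : K) : xo θ i t * xo θ i t = 1 := by
  rw [xo_add hK, show t + t = 0 by linear_combination t * hK]; exact Q_zero θ _ _

theorem ze_two (hK : (2 : K) = 0) (i : Fin 8) (t : K) : ze θ i t * ze θ i t = 1 := by
  rw [ze_add hK, show t + t = 0 by linear_combination t * hK]; exact Q_zero θ _ _

/-! ### opposite root elements -/

theorem cube_X (hK : (2 : K) = 0) {m : Fin 6 → ℤ} (hm : ip B6 m m = 2) :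
    (X good6t m 1 * X good6t (-m) 1 : GLM B6 K) ^ 3 = 1 := by
  have e := nn_X (K := K) good6t hm m 1
  rw [cast_one (eta_sq _ _) hK, one_mul,
    show rf B6 m m = -m by unfold rf; rw [hm, two_smul]; abel] at e
  unfold nn at e
  have p2 := X_two (K := K) good6t hK m 1
  have q2 := X_two (K := K) good6t hK (-m) 1
  generalize (X good6t m 1 : GLM B6 K) = p at *
  generalize (X good6t (-m) 1 : GLM B6 K) = q at *
  have e1 : p * q = q * p * q * p := by
    calc p * q = p * q * (p * p) := by rw [p2, mul_one]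
      _ = p * q * p * p := by group
      _ = _ := by rw [e]; group
  rw [pow_succ, pow_two]
  calc p * q * (p * q) * (p * q) = (q * p * q * p) * (p * q) * (p * q) := by rw [← e1]
    _ = q * p * q * (p * p) * q * p * q := by group
    _ = q * p * (q * q) * p * q := by rw [p2]; group
    _ = q * (p * p) * q := by rw [q2]; group
    _ = 1 := by rw [p2, mul_one, q2]

theorem tri_eq {G : Type*} [Group G] {x0 x1 x2 y0 y1 y2 : G}
    (d : Commute x1 y0) (e : Commute x2 y0) (f : Commute x2 y1) :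
    x0 * x1 * x2 * (y0 * y1 * y2) = (x0 * y0) * (x1 * y1) * (x2 * y2) := by
  calc x0 * x1 * x2 * (y0 * y1 * y2) = x0 * x1 * (x2 * y0) * y1 * y2 := by group
    _ = x0 * (x1 * y0) * (x2 * y1) * y2 := by rw [e.eq]; group
    _ = _ := by rw [d.eq, f.eq]; group

/-- a root is orthogonal to another one -/
def Og (a b : Fin 6 → ℤ) : Prop := ip B6 a b = 0

theorem Og_comm {a b : Fin 6 → ℤ} (h : Og a b) (s t : K) :
    Commute (X good6t a s : GLM B6 K) (X good6t b t) := X_comm good6t (by rw [h]) s t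

theorem Og_neg {a b : Fin 6 → ℤ} (h : Og a b) : Og a (-b) := by
  unfold Og; rw [ip_neg_right, h, neg_zero]

theorem Og_neg' {a b : Fin 6 → ℤ} (h : Og a b) : Og (-a) b := by
  unfold Og; rw [ip_neg_left, h, neg_zero]

theorem Og_symm {a b : Fin 6 → ℤ} (h : Og a b) : Og b a := by
  unfold Og; rw [ip_comm good6t]; exact h

/-- three pairwise orthogonal roots -/
def Tr3 (z r : Fin 6 → ℤ) : Prop :=
  ip B6 z z = 2 ∧ ip B6 r r = 2 ∧ ip B6 (tau r) (tau r) = 2 ∧ Og z r ∧ Og z (tau r) ∧ Og r (tau r)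

instance (z r : Fin 6 → ℤ) : Decidable (Tr3 z r) := by unfold Tr3 Og; infer_instance

theorem Q_one (θ : K ≃+* K) (z r : Fin 6 → ℤ) : Q θ z r 1 =
    X good6t z 1 * X good6t r 1 * X good6t (tau r) 1 := by
  unfold Q; rw [map_one, one_pow]

theorem QQ_eq (θ : K ≃+* K) {z r : Fin 6 → ℤ} (h : Tr3 z r) :
    Q θ z r 1 * Q θ (-z) (-r) 1 = (X good6t z 1 * X good6t (-z) 1) *
      (X good6t r 1 * X good6t (-r) 1) * (X good6t (tau r) 1 * X good6t (-tau r) 1) := by
  obtain ⟨h1, h2, h3, o1, o2, o3⟩ := h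
  rw [Q_one, Q_one, flip_neg]
  exact tri_eq (Og_comm (Og_neg (Og_symm o1)) _ _) (Og_comm (Og_neg (Og_symm o2)) _ _)
    (Og_comm (Og_neg (Og_symm o3)) _ _)

theorem cube_Q (hK : (2 : K) = 0) (θ : K ≃+* K) {z r : Fin 6 → ℤ} (h : Tr3 z r) :
    (Q θ z r 1 * Q θ (-z) (-r) 1) ^ 3 = 1 := by
  rw [QQ_eq θ h]
  obtain ⟨h1, h2, h3, o1, o2, o3⟩ := h
  have c : ∀ {a b : Fin 6 → ℤ}, Og a b → Commute (X good6t a 1 * X good6t (-a) 1 : GLM B6 K)
      (X good6t b 1 * X good6t (-b) 1) := by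
    intro a b o
    exact Commute.mul_left (Commute.mul_right (Og_comm o _ _) (Og_comm (Og_neg o) _ _))
      (Commute.mul_right (Og_comm (Og_neg' o) _ _) (Og_comm (Og_neg (Og_neg' o)) _ _))
  rw [Commute.mul_pow (Commute.mul_left (c o2) (c o3)), Commute.mul_pow (c o1), cube_X hK h1,
    cube_X hK h2, cube_X hK h3, one_mul, one_mul]

theorem NN_QQQ (hK : (2 : K) = 0) (θ : K ≃+* K) {z r : Fin 6 → ℤ} (h : Tr3 z r) :
    (NN good6t [(true, z), (true, r), (true, tau r)] : GLM B6 K) =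
      Q θ z r 1 * Q θ (-z) (-r) 1 * Q θ z r 1 := by
  rw [QQ_eq θ h, Q_one]
  obtain ⟨h1, h2, h3, o1, o2, o3⟩ := h
  have c01 := (Og_comm (K := K) o1 1 1).eq
  have c02 := (Og_comm (K := K) o2 1 1).eq
  have c12 := (Og_comm (K := K) o3 1 1).eq
  have n01 := (Og_comm (K := K) (Og_neg o1) 1 1).eq
  have n02 := (Og_comm (K := K) (Og_neg o2) 1 1).eq
  have n12 := (Og_comm (K := K) (Og_neg o3) 1 1).eq
  show nn good6t z * (nn good6t r * (nn good6t (tau r) * 1)) = _
  unfold nn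
  rw [mul_one]
  generalize (X good6t z 1 : GLM B6 K) = x0 at *
  generalize (X good6t (-z) 1 : GLM B6 K) = y0 at *
  generalize (X good6t r 1 : GLM B6 K) = x1 at *
  generalize (X good6t (-r) 1 : GLM B6 K) = y1 at *
  generalize (X good6t (tau r) 1 : GLM B6 K) = x2 at *
  generalize (X good6t (-tau r) 1 : GLM B6 K) = y2 at *
  calc x0 * y0 * x0 * (x1 * y1 * x1 * (x2 * y2 * x2))
      = x0 * y0 * (x0 * x1) * y1 * (x1 * x2) * y2 * x2 := by group
    _ = x0 * y0 * x1 * (x0 * y1) * x2 * (x1 * y2) * x2 := by rw [c01, c12]; group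
    _ = x0 * y0 * x1 * y1 * (x0 * x2) * y2 * x1 * x2 := by rw [n01, n12]; group
    _ = x0 * y0 * x1 * y1 * x2 * (x0 * y2) * x1 * x2 := by rw [c02]; group
    _ = x0 * y0 * (x1 * y1) * (x2 * y2) * (x0 * x1 * x2) := by rw [n02]; group

theorem tr_od : ∀ i, Tr3 (oz i) (orr i) := by decide +kernel

theorem neg_od : ∀ i, oz (i + 4) = -oz i ∧ orr (i + 4) = -orr i := by decide +kernel

theorem cube_x (hK : (2 : K) = 0) (θ : K ≃+* K) (i : Fin 8) :
    (xo θ i 1 * xo θ (i + 4) 1) ^ 3 = 1 := by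
  unfold xo
  rw [(neg_od i).1, (neg_od i).2]
  exact cube_Q hK θ (tr_od i)

theorem NN_wk (hK : (2 : K) = 0) (θ : K ≃+* K) (i : Fin 8) :
    (NN good6t (wk i) : GLM B6 K) = xo θ i 1 * xo θ (i + 4) 1 * xo θ i 1 := by
  unfold xo
  rw [(neg_od i).1, (neg_od i).2]
  exact NN_QQQ hK θ (tr_od i)

theorem wk_mem (hK : (2 : K) = 0) {i : Fin 8} (h1 : xo θ i 1 ∈ L) (h2 : xo θ (i + 4) 1 ∈ L) :
    NN good6t (wk i) ∈ L := by
  rw [NN_wk hK θ]
  exact L.mul_mem (L.mul_mem h1 h2) h1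

end H41R
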