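import Mathlib
import Pool.Agent.H.MP_0335f8_al.helper41r.RGen

/-!
# Generation of the Ree group from three elements
-/

namespace H41R

open H41Chev

variable {K : Type*} [Field K] {θ : K ≃+* K} {L : Subgroup (GLM B6 K)}

theorem p0000 (t u : Kˣ) : pm θ t u 0 0 0 0 = 1 := by rw [pm_eq]; simp

theorem p1000 (t u : Kˣ) : pm θ t u 1 0 0 0 = t := by rw [pm_eq]; simp

theorem p0010 (t u : Kˣ) : pm θ t u 0 0 1 0 = u := by rw [pm_eq]; simp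

theorem p1010 (t u : Kˣ) : pm θ t u 1 0 1 0 = t * u := by rw [pm_eq]; simp

theorem p0110 (t u : Kˣ) : pm θ t u 0 1 1 0 = θ t ^ 2 * u := by
  rw [pm_eq, show (2 * 1 : ℤ) = ((2 : ℕ) : ℤ) by norm_num, zpow_natCast]; simp

theorem p1001 (t u : Kˣ) : pm θ t u 1 0 0 1 = t * θ u ^ 2 := by
  rw [pm_eq, show (2 * 1 : ℤ) = ((2 : ℕ) : ℤ) by norm_num, zpow_natCast]; simp

theorem p2000 (t u : Kˣ) : pm θ t u 2 0 0 0 = t ^ 2 := by
  rw [pm_eq, show (2 : ℤ) = ((2 : ℕ) : ℤ) by norm_num, zpow_natCast]; simp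

theorem q1120 (t u : Kˣ) (h : t * u = 1) : pm θ t u 1 1 2 0 = pm θ t u 0 1 1 0 := by
  have e : (t : K) * u = 1 := by rw [← Units.val_mul, h, Units.val_one]
  have z2 : ∀ x : K, x ^ (2 : ℤ) = x ^ 2 := fun x => by exact_mod_cast zpow_natCast x 2
  rw [p0110, pm_eq]
  simp only [mul_zero, mul_one, zpow_zero, zpow_one, z2]
  linear_combination (θ (t : K) ^ 2 * u) * e

/-- transport along a commuting square -/
theorem Q1 (i : Fin 8) (t : K) : Q θ (oz i) (orr i) t = xo θ i t := rfl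

theorem Q2 (i : Fin 8) (t : K) : Q θ (ez i) (er i) t = ze θ i t := rfl

theorem G1 (i : Fin 8) (t : K) : G θ (fz i) (fr i) t = ge θ i t := rfl

section

variable (hK : (2 : K) = 0) (hθ : ∀ x, θ (θ x) ^ 2 = x)

include hK hθ

theorem j1 (t u : Kˣ) : xo θ 0 (t : K) * ze θ 2 (u : K) =
    ze θ 1 ((t : K) * u) * ze θ 2 (u : K) * xo θ 0 (t : K) := by
  have h := J1 hK hθ t u
  rwa [p1000, p0010, p1010] at h

theorem j2 (t u : Kˣ) : ze θ 0 (t : K) * ze θ 3 (u : K) =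
    xo θ 2 ((t : K) * u) * ze θ 1 (θ t ^ 2 * u) * ze θ 2 (t * θ u ^ 2) * ze θ 3 (u : K) *
      ze θ 0 (t : K) := by
  have h := J2 hK hθ t u
  rwa [p1000, p0010, p1010, p0110, p1001] at h

theorem j2p (t u : Kˣ) : ze θ 7 (t : K) * ze θ 2 (u : K) =
    xo θ 1 ((t : K) * u) * ze θ 0 (θ t ^ 2 * u) * ze θ 1 (t * θ u ^ 2) * ze θ 2 (u : K) *
      ze θ 7 (t : K) := by
  have h := J2p hK hθ t u
  rwa [p1000, p0010, p1010, p0110, p1001] at h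

theorem j3 (t : Kˣ) : ze θ 7 1 * xo θ 0 (t : K) * xo θ 2 1 * ze θ 7 1 =
    xo θ 0 (t : K) * xo θ 2 1 * ze θ 0 1 := by
  have h := J3 hK hθ t 1
  rwa [p1000, p0000] at h

theorem c06 (t u : Kˣ) : xo θ 0 (t : K) * xo θ 6 (u : K) = xo θ 6 (u : K) * xo θ 0 (t : K) := by
  have h := C_x0_x6 hK hθ t u
  rwa [p1000, p0010] at h

theorem c46 (t u : Kˣ) : xo θ 4 (t : K) * xo θ 6 (u : K) = xo θ 6 (u : K) * xo θ 4 (t : K) := by
  have h := C_x4_x6 hK hθ t u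
  rwa [p1000, p0010] at h

theorem c02 (t u : Kˣ) : xo θ 0 (t : K) * xo θ 2 (u : K) = xo θ 2 (u : K) * xo θ 0 (t : K) := by
  have h := C_x0_x2 hK hθ t u
  rwa [p1000, p0010] at h

theorem c42 (t u : Kˣ) : xo θ 4 (t : K) * xo θ 2 (u : K) = xo θ 2 (u : K) * xo θ 4 (t : K) := by
  have h := C_x4_x2 hK hθ t u
  rwa [p1000, p0010] at h

theorem d00 (t u : Kˣ) : xo θ 0 (t : K) * ze θ 0 (u : K) = ze θ 0 (u : K) * xo θ 0 (t : K) := by
  have h := C_x0_z0 hK hθ t u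
  rwa [p1000, p0010] at h

theorem d01 (t u : Kˣ) : xo θ 0 (t : K) * ze θ 1 (u : K) = ze θ 1 (u : K) * xo θ 0 (t : K) := by
  have h := C_x0_z1 hK hθ t u
  rwa [p1000, p0010] at h

theorem d07 (t u : Kˣ) : xo θ 0 (t : K) * ze θ 7 (u : K) = ze θ 7 (u : K) * xo θ 0 (t : K) := by
  have h := C_x0_z7 hK hθ t u
  rwa [p1000, p0010] at h

theorem d20 (t u : Kˣ) : xo θ 2 (t : K) * ze θ 0 (u : K) = ze θ 0 (u : K) * xo θ 2 (t : K) := by
  have h := C_x2_z0 hK hθ t u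
  rwa [p1000, p0010] at h

theorem d23 (t u : Kˣ) : xo θ 2 (t : K) * ze θ 3 (u : K) = ze θ 3 (u : K) * xo θ 2 (t : K) := by
  have h := C_x2_z3 hK hθ t u
  rwa [p1000, p0010] at h

theorem d67 (t u : Kˣ) : xo θ 6 (t : K) * ze θ 7 (u : K) = ze θ 7 (u : K) * xo θ 6 (t : K) := by
  have h := C_x6_z7 hK hθ t u
  rwa [p1000, p0010] at h

/-! ### the three elements -/

/-- first step -/
theorem st1 (h1 : xo θ 0 1 ∈ L) (h3 : xo θ 4 1 * xo θ 6 1 ∈ L) :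
    xo θ 6 1 ∈ L ∧ xo θ 4 1 ∈ L := by
  have e : (xo θ 0 1 * (xo θ 4 1 * xo θ 6 1)) ^ 3 = (xo θ 6 1 : GLM B6 K) := by
    have c0 : Commute (xo θ 0 1) (xo θ 6 1 : GLM B6 K) := by
      have := c06 hK hθ 1 1; rwa [Units.val_one] at this
    have c4 : Commute (xo θ 4 1) (xo θ 6 1 : GLM B6 K) := by
      have := c46 hK hθ 1 1; rwa [Units.val_one] at this
    rw [← mul_assoc, Commute.mul_pow (c0.mul_left c4), show (xo θ 0 1 * xo θ 4 1 : GLM B6 K) ^ 3 = 1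
      from cube_x hK θ 0, one_mul, pow_succ, pow_two, xo_two hK, one_mul]
  have h6 : xo θ 6 1 ∈ L := by rw [← e]; exact L.pow_mem (L.mul_mem h1 h3) 3
  refine ⟨h6, ?_⟩
  have := L.mul_mem h3 (L.inv_mem h6)
  rwa [mul_assoc, mul_inv_cancel, mul_one] at this

/-- second step -/
theorem st2 (t : Kˣ) (h6 : xo θ 6 1 ∈ L) (h2 : xo θ 0 (t : K) * xo θ 2 1 * ze θ 0 1 ∈ L) :
    xo θ 0 (t : K) ∈ L ∧ xo θ 2 1 * ze θ 0 1 ∈ L := by
  have e : (xo θ 6 1 * (xo θ 0 (t : K) * xo θ 2 1 * ze θ 0 1)) ^ 3 = (xo θ 0 (t : K) : GLM B6 K) := by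
    have c0 : Commute (xo θ 0 (t : K)) (xo θ 6 1 : GLM B6 K) := by
      have := c06 hK hθ t 1; rwa [Units.val_one] at this
    have c2 : Commute (xo θ 0 (t : K)) (xo θ 2 1 : GLM B6 K) := by
      have := c02 hK hθ t 1; rwa [Units.val_one] at this
    have c7 : Commute (xo θ 0 (t : K)) (ze θ 7 1 : GLM B6 K) := by
      have := d07 hK hθ t 1; rwa [Units.val_one] at this
    have c67 : Commute (xo θ 6 1) (ze θ 7 1 : GLM B6 K) := by
      have := d67 hK hθ 1 1; rwa [Units.val_one] at this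
    have z2 := ze_two (θ := θ) hK 7 1
    have cu : (xo θ 6 1 * xo θ 2 1 : GLM B6 K) ^ 3 = 1 := cube_x hK θ 6
    have x2 := xo_two (θ := θ) hK 0 (t : K)
    rw [← j3 hK hθ t]
    have e1 : xo θ 6 1 * (ze θ 7 1 * xo θ 0 (t : K) * xo θ 2 1 * ze θ 7 1) =
        ze θ 7 1 * (xo θ 0 (t : K) * (xo θ 6 1 * xo θ 2 1)) * (ze θ 7 1)⁻¹ := by
      rw [show (ze θ 7 1)⁻¹ = (ze θ 7 1 : GLM B6 K) from inv_eq_of_mul_eq_one_left z2]
      calc xo θ 6 1 * (ze θ 7 1 * xo θ 0 (t : K) * xo θ 2 1 * ze θ 7 1) =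
          (xo θ 6 1 * ze θ 7 1) * xo θ 0 (t : K) * xo θ 2 1 * ze θ 7 1 := by group
        _ = ze θ 7 1 * (xo θ 6 1 * xo θ 0 (t : K)) * xo θ 2 1 * ze θ 7 1 := by rw [c67.eq]; group
        _ = _ := by rw [← c0.eq]; group
    rw [e1, conj_pow, Commute.mul_pow (c0.mul_right c2), cu, mul_one, pow_succ, pow_two, x2,
      one_mul, ← c7.eq, mul_assoc, mul_inv_cancel, mul_one]
  have h0 : xo θ 0 (t : K) ∈ L := by rw [← e]; exact L.pow_mem (L.mul_mem h6 h2) 3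
  refine ⟨h0, ?_⟩
  have := L.mul_mem (L.inv_mem h0) h2
  rwa [mul_assoc, inv_mul_cancel_left] at this

/-- third and fourth steps -/
theorem st3 (h0 : xo θ 0 1 ∈ L) (h4 : xo θ 4 1 ∈ L) (hy : xo θ 2 1 * ze θ 0 1 ∈ L) :
    xo θ 2 1 ∈ L ∧ ze θ 0 1 ∈ L ∧ ze θ 1 1 ∈ L := by
  have w0 : NN good6t (wk 0) ∈ L := wk_mem hK h0 h4
  have hy' : xo θ 2 1 * ze θ 3 1 ∈ L := by
    refine of_conj (n := NN good6t (wk 0)) ?_ w0 hy
    rw [← mul_assoc, N_x hK, mul_assoc, N_z hK, ← mul_assoc]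
    rfl
  have c20 : Commute (xo θ 2 1) (ze θ 0 1 : GLM B6 K) := by
    have := d20 hK hθ 1 1; rwa [Units.val_one] at this
  have c23 : Commute (xo θ 2 1) (ze θ 3 1 : GLM B6 K) := by
    have := d23 hK hθ 1 1; rwa [Units.val_one] at this
  have c02' : Commute (xo θ 0 1) (xo θ 2 1 : GLM B6 K) := by
    have := c02 hK hθ 1 1; rwa [Units.val_one] at this
  have c01' : Commute (xo θ 0 1) (ze θ 1 1 : GLM B6 K) := by
    have := d01 hK hθ 1 1; rwa [Units.val_one] at this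
  have x2 := xo_two (θ := θ) hK 2 1
  have z22 := ze_two (θ := θ) hK 2 1
  have z12 := ze_two (θ := θ) hK 1 1
  have e2 := j2 hK hθ (1 : Kˣ) 1
  have e1 := j1 hK hθ (1 : Kˣ) 1
  rw [Units.val_one, mul_one, map_one, one_pow, mul_one] at e2
  rw [Units.val_one, mul_one] at e1
  have hD : xo θ 2 1 * ze θ 1 1 * ze θ 2 1 ∈ L := by
    have e : xo θ 2 1 * ze θ 0 1 * (xo θ 2 1 * ze θ 3 1) =
        (xo θ 2 1 * ze θ 1 1 * ze θ 2 1) * (xo θ 2 1 * ze θ 3 1 * (xo θ 2 1 * ze θ 0 1)) := by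
      calc xo θ 2 1 * ze θ 0 1 * (xo θ 2 1 * ze θ 3 1) =
          xo θ 2 1 * (ze θ 0 1 * xo θ 2 1) * ze θ 3 1 := by group
        _ = (xo θ 2 1 * xo θ 2 1) * (ze θ 0 1 * ze θ 3 1) := by rw [← c20.eq]; group
        _ = (xo θ 2 1 * ze θ 1 1 * ze θ 2 1) * (xo θ 2 1 * xo θ 2 1 * ze θ 3 1 * ze θ 0 1) := by
          rw [e2, x2]; group
        _ = (xo θ 2 1 * ze θ 1 1 * ze θ 2 1) * (xo θ 2 1 * (xo θ 2 1 * ze θ 3 1) * ze θ 0 1) := by
          group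
        _ = (xo θ 2 1 * ze θ 1 1 * ze θ 2 1) * (xo θ 2 1 * (ze θ 3 1 * xo θ 2 1) * ze θ 0 1) := by
          rw [← c23.eq]
        _ = _ := by group
    exact of_com e hy hy'
  have hz1 : ze θ 1 1 ∈ L := by
    have hD' : xo θ 2 1 * ze θ 2 1 ∈ L := by
      refine of_conj (n := xo θ 0 1) ?_ h0 hD
      calc xo θ 0 1 * (xo θ 2 1 * ze θ 1 1 * ze θ 2 1) =
          (xo θ 0 1 * xo θ 2 1) * ze θ 1 1 * ze θ 2 1 := by group
        _ = xo θ 2 1 * (xo θ 0 1 * ze θ 1 1) * ze θ 2 1 := by rw [c02'.eq]; group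
        _ = xo θ 2 1 * ze θ 1 1 * (xo θ 0 1 * ze θ 2 1) := by rw [c01'.eq]; group
        _ = xo θ 2 1 * (ze θ 1 1 * ze θ 1 1) * ze θ 2 1 * xo θ 0 1 := by rw [e1]; group
        _ = _ := by rw [z12, mul_one]
    have c21 : Commute (xo θ 2 1) (ze θ 1 1 : GLM B6 K) := by
      have := C_x2_z1 hK hθ 1 1
      rw [p1000, p0010, Units.val_one] at this
      exact this
    have := L.mul_mem hD (L.inv_mem hD')
    rwa [show xo θ 2 1 * ze θ 1 1 * ze θ 2 1 * (xo θ 2 1 * ze θ 2 1)⁻¹ =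
      xo θ 2 1 * ze θ 1 1 * (xo θ 2 1 : GLM B6 K)⁻¹ by group, c21.eq, mul_assoc, mul_inv_cancel,
      mul_one] at this
  have hz2 : ze θ 2 1 ∈ L := of_conj (N_z hK 0 1 (1 : K)) w0 hz1
  have hx2 : xo θ 2 1 ∈ L := by
    have := L.mul_mem (L.mul_mem hD (L.inv_mem hz2)) (L.inv_mem hz1)
    rwa [mul_inv_cancel_right, mul_inv_cancel_right] at this
  refine ⟨hx2, ?_, hz1⟩
  have := L.mul_mem (L.inv_mem hx2) hy
  rwa [inv_mul_cancel_left] at this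

/-- all the words -/
theorem st5 (h0 : xo θ 0 1 ∈ L) (h4 : xo θ 4 1 ∈ L) (h6 : xo θ 6 1 ∈ L) (h2 : xo θ 2 1 ∈ L)
    (z0 : ze θ 0 1 ∈ L) (z1 : ze θ 1 1 ∈ L) : (∀ k, NN good6t (wk k) ∈ L) ∧
      (∀ k, ze θ k 1 ∈ L) := by
  have w0 : NN good6t (wk 0) ∈ L := wk_mem hK h0 h4
  have w2 : NN good6t (wk 2) ∈ L := wk_mem hK h2 h6
  have z2 : ze θ 2 1 ∈ L := of_conj (N_z hK 0 1 (1 : K)) w0 z1
  have z3 : ze θ 3 1 ∈ L := of_conj (N_z hK 0 0 (1 : K)) w0 z0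
  have z7 : ze θ 7 1 ∈ L := of_conj (N_z hK 2 0 (1 : K)) w2 z0
  have z6 : ze θ 6 1 ∈ L := of_conj (N_z hK 2 1 (1 : K)) w2 z1
  have z5 : ze θ 5 1 ∈ L := of_conj (N_z hK 2 2 (1 : K)) w2 z2
  have z4 : ze θ 4 1 ∈ L := of_conj (N_z hK 2 3 (1 : K)) w2 z3
  have x1 : xo θ 1 1 ∈ L := by
    have e := j2p hK hθ (1 : Kˣ) 1
    rw [Units.val_one, mul_one, map_one, one_pow, mul_one] at e
    have : xo θ 1 1 * ze θ 0 1 * ze θ 1 1 ∈ L := by
      refine of_com (a := ze θ 7 1) (b := ze θ 2 1) ?_ z7 z2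
      rw [e]; group
    have := L.mul_mem (L.mul_mem this (L.inv_mem z1)) (L.inv_mem z0)
    rwa [mul_inv_cancel_right, mul_inv_cancel_right] at this
  have x3 : xo θ 3 1 ∈ L := of_conj (N_x hK 0 1 (1 : K)) w0 x1
  have x7 : xo θ 7 1 ∈ L := of_conj (N_x hK 2 1 (1 : K)) w2 x1
  have x5 : xo θ 5 1 ∈ L := of_conj (N_x hK 0 7 (1 : K)) w0 x7
  have xa : ∀ k, xo θ k 1 ∈ L := by
    intro k
    fin_cases k
    · exact h0
    · exact x1
    · exact h2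
    · exact x3
    · exact h4
    · exact x5
    · exact h6
    · exact x7
  refine ⟨fun k => wk_mem hK (xa k) (xa (k + 4)), ?_⟩
  intro k
  fin_cases k
  · exact z0
  · exact z1
  · exact z2
  · exact z3
  · exact z4
  · exact z5
  · exact z6
  · exact z7

end

end H41R
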