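import Mathlib
import Pool.Agent.H.MP_0335f8_al.helper41r.RStart

/-!
# Generation of the Ree group: all the parameters
-/

namespace H41R

open H41Chev

variable {K : Type*} [Field K] {θ : K ≃+* K} {L : Subgroup (GLM B6 K)}

theorem sqI (hK : (2 : K) = 0) {a b : K} (h : a ^ 2 = b ^ 2) : a = b := by
  have : (a - b) ^ 2 = 0 := by linear_combination h + (b ^ 2 - a * b) * hK
  exact sub_eq_zero.1 ((pow_eq_zero_iff two_ne_zero).1 this)

/-- the map `t ↦ θ t ^ 2 / t` on the units -/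
def tm (θ : K ≃+* K) (t : Kˣ) : Kˣ := Units.map (θ : K →* K) t ^ 2 * t⁻¹

theorem tm_val (θ : K ≃+* K) (t : Kˣ) : (tm θ t : K) = θ t ^ 2 * ((t⁻¹ : Kˣ) : K) := rfl

theorem tm_inj (hθ : ∀ x, θ (θ x) ^ 2 = x) : Function.Injective (tm θ) := by
  intro a b h
  have hc : Units.map (θ : K →* K) (a * b⁻¹) ^ 2 = a * b⁻¹ := by
    unfold tm at h
    rw [map_mul, map_inv, mul_pow, inv_pow]
    generalize Units.map (θ : K →* K) a ^ 2 = x at *
    generalize Units.map (θ : K →* K) b ^ 2 = y at *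
    calc x * y⁻¹ = (x * a⁻¹) * a * y⁻¹ := by group
      _ = y * b⁻¹ * a * y⁻¹ := by rw [h]
      _ = a * b⁻¹ * (y * y⁻¹) := by ac_rfl
      _ = _ := by rw [mul_inv_cancel, mul_one]
  set c := a * b⁻¹ with hcd
  have e1 : θ (c : K) ^ 2 = c := congrArg Units.val hc
  have e2 : θ (c : K) = c := by
    have h2 := hθ (c : K)
    have h3 : θ (θ (c : K) ^ 2) = θ (c : K) := by rw [e1]
    rw [map_pow] at h3
    exact h3.symm.trans h2
  have e3 : (c : K) = 1 := by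
    rw [e2] at e1
    have : (c : K) * (c - 1) = 0 := by linear_combination e1
    rcases mul_eq_zero.1 this with h | h
    · exact absurd h c.ne_zero
    · exact sub_eq_zero.1 h
  have e4 : a * b⁻¹ = 1 := Units.ext e3
  exact mul_inv_eq_one.1 e4

theorem tm_surj [Finite K] (hθ : ∀ x, θ (θ x) ^ 2 = x) : Function.Surjective (tm θ) :=
  Finite.injective_iff_surjective.1 (tm_inj hθ)

theorem xo_zero (θ : K ≃+* K) (i : Fin 8) : (xo θ i 0 : GLM B6 K) = 1 := Q_zero θ _ _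

theorem ze_zero (θ : K ≃+* K) (i : Fin 8) : (ze θ i 0 : GLM B6 K) = 1 := Q_zero θ _ _

theorem ge_zero (θ : K ≃+* K) (i : Fin 8) : (ge θ i 0 : GLM B6 K) = 1 := G_zero θ _ _

theorem idx_z : ∀ j : Fin 8, ∃ k : Fin 8, 2 * k + 3 - 1 = j ∨ 2 * k + 3 - 2 = j := by decide +kernel

theorem idx_x : ∀ j : Fin 8, ∃ k : Fin 8, 2 * k + 4 - 2 = j ∨ 2 * k + 4 - 1 = j := by decide +kernel

section

variable (hK : (2 : K) = 0) (hθ : ∀ x, θ (θ x) ^ 2 = x)

include hK hθ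

theorem zAll {v : K} (hv : v ≠ 0) (hp : ∀ x : K, x ≠ 0 → ∃ k : ℕ, x = v ^ k)
    (hx : xo θ 0 v ∈ L) (hw : ∀ k, NN good6t (wk k) ∈ L) (z1 : ze θ 1 1 ∈ L) :
    ∀ j t, ze θ j t ∈ L := by
  have hk : ∀ k : ℕ, ze θ 1 (v ^ k) ∈ L := by
    intro k
    induction k with
    | zero => rw [pow_zero]; exact z1
    | succ k ih =>
      have h2 : ze θ 2 (v ^ k) ∈ L := of_conj (N_z hK 0 1 (v ^ k)) (hw 0) ih
      have e := j1 hK hθ (Units.mk0 v hv) (Units.mk0 (v ^ k) (pow_ne_zero _ hv))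
      rw [Units.val_mk0, Units.val_mk0, mul_assoc, ← pow_succ'] at e
      exact of_com e hx h2
  have h1 : ∀ t, ze θ 1 t ∈ L := by
    intro t
    by_cases h : t = 0
    · rw [h, ze_zero]; exact L.one_mem
    · obtain ⟨k, rfl⟩ := hp t h
      exact hk k
  have h2 : ∀ t, ze θ 2 t ∈ L := fun t => of_conj (N_z hK 0 1 t) (hw 0) (h1 t)
  intro j t
  obtain ⟨k, h | h⟩ := idx_z j
  · have := of_conj (N_z hK k 1 t) (hw k) (h1 t)
    rwa [h] at this
  · have := of_conj (N_z hK k 2 t) (hw k) (h2 t)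
    rwa [h] at this

theorem xAll (hw : ∀ k, NN good6t (wk k) ∈ L) (hz : ∀ j t, ze θ j t ∈ L) :
    ∀ j t, xo θ j t ∈ L := by
  have h2 : ∀ t, xo θ 2 t ∈ L := by
    intro t
    by_cases h : t = 0
    · rw [h, xo_zero]; exact L.one_mem
    · have e := j2 hK hθ 1 (Units.mk0 t h)
      rw [Units.val_one, Units.val_mk0, one_mul] at e
      have : xo θ 2 t * ze θ 1 (θ 1 ^ 2 * t) * ze θ 2 (1 * θ t ^ 2) ∈ L := by
        refine of_com (a := ze θ 0 1) (b := ze θ 3 t) ?_ (hz _ _) (hz _ _)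
        rw [e]; group
      have := L.mul_mem (L.mul_mem this (L.inv_mem (hz 2 (1 * θ t ^ 2))))
        (L.inv_mem (hz 1 (θ 1 ^ 2 * t)))
      rwa [mul_inv_cancel_right, mul_inv_cancel_right] at this
  have h1 : ∀ t, xo θ 1 t ∈ L := by
    intro t
    by_cases h : t = 0
    · rw [h, xo_zero]; exact L.one_mem
    · have e := j2p hK hθ 1 (Units.mk0 t h)
      rw [Units.val_one, Units.val_mk0, one_mul] at e
      have : xo θ 1 t * ze θ 0 (θ 1 ^ 2 * t) * ze θ 1 (1 * θ t ^ 2) ∈ L := by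
        refine of_com (a := ze θ 7 1) (b := ze θ 2 t) ?_ (hz _ _) (hz _ _)
        rw [e]; group
      have := L.mul_mem (L.mul_mem this (L.inv_mem (hz 1 (1 * θ t ^ 2))))
        (L.inv_mem (hz 0 (θ 1 ^ 2 * t)))
      rwa [mul_inv_cancel_right, mul_inv_cancel_right] at this
  intro j t
  obtain ⟨k, h | h⟩ := idx_x j
  · have := of_conj (N_x hK k 2 t) (hw k) (h2 t)
    rwa [h] at this
  · have := of_conj (N_x hK k 1 t) (hw k) (h1 t)
    rwa [h] at this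

theorem g_mid (hz : ∀ j t, ze θ j t ∈ L) (hx : ∀ j t, xo θ j t ∈ L) (t : Kˣ) :
    ge θ 1 (tm θ t : K) * xo θ 2 (tm θ t : K) * ge θ 2 1 ∈ L := by
  have h := J4 hK hθ t t⁻¹
  rw [q1120 t t⁻¹ (mul_inv_cancel t), p0110, show pm θ t t⁻¹ 1 0 1 0 = 1 by
    rw [p1010, ← Units.val_mul, mul_inv_cancel, Units.val_one]] at h
  rw [tm_val]
  generalize pm θ t t⁻¹ 1 1 1 0 = a1 at h
  generalize pm θ t t⁻¹ 1 1 0 1 = a2 at h
  generalize pm θ t t⁻¹ 1 1 1 1 = a3 at h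
  generalize pm θ t t⁻¹ 1 0 0 1 = a4 at h
  generalize pm θ t t⁻¹ 1 0 0 0 = a5 at h
  generalize pm θ t t⁻¹ 0 0 1 0 = a6 at h
  change xo θ 0 a5 * ze θ 3 a6 = ze θ 0 a1 * xo θ 1 a2 *
    ge θ 1 (θ (t : K) ^ 2 * ((t⁻¹ : Kˣ) : K)) * xo θ 2 (θ (t : K) ^ 2 * ((t⁻¹ : Kˣ) : K)) *
    ge θ 2 1 * ze θ 2 a3 * xo θ 3 a4 * ze θ 3 a6 * xo θ 0 a5 at h
  generalize ge θ 1 (θ (t : K) ^ 2 * ((t⁻¹ : Kˣ) : K)) = y1 at *
  generalize xo θ 2 (θ (t : K) ^ 2 * ((t⁻¹ : Kˣ) : K)) = y2 at *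
  generalize ge θ 2 (1 : K) = y3 at *
  have e : y1 * y2 * y3 = (xo θ 1 a2)⁻¹ * (ze θ 0 a1)⁻¹ * (xo θ 0 a5 * ze θ 3 a6) *
      (xo θ 0 a5)⁻¹ * (ze θ 3 a6)⁻¹ * (xo θ 3 a4)⁻¹ * (ze θ 2 a3)⁻¹ := by
    rw [h]; group
  rw [e]
  exact L.mul_mem (L.mul_mem (L.mul_mem (L.mul_mem (L.mul_mem (L.mul_mem (L.inv_mem (hx _ _))
    (L.inv_mem (hz _ _))) (L.mul_mem (hx _ _) (hz _ _))) (L.inv_mem (hx _ _)))
    (L.inv_mem (hz _ _))) (L.inv_mem (hx _ _))) (L.inv_mem (hz _ _))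

theorem gAll [Finite K] (hc : ∃ w : K, w ≠ 0 ∧ w ≠ 1) (hw : ∀ k, NN good6t (wk k) ∈ L)
    (hz : ∀ j t, ze θ j t ∈ L) (hx : ∀ j t, xo θ j t ∈ L) : ∀ j t, ge θ j t ∈ L := by
  have hm : ∀ a : Kˣ, ge θ 1 (a : K) * xo θ 2 (a : K) * ge θ 2 1 ∈ L := by
    intro a
    obtain ⟨t, rfl⟩ := tm_surj hθ a
    exact g_mid hK hθ hz hx t
  have hd : ∀ a b : Kˣ, ge θ 1 (a : K) * (ge θ 1 (b : K))⁻¹ ∈ L := by
    intro a b
    have c1 : Commute (xo θ 2 (a : K)) (ge θ 1 (a : K)) := by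
      have := C_x2_g1 hK hθ a a; rwa [p1000, p0010] at this
    have c2 : Commute (xo θ 2 (b : K)) (ge θ 1 (b : K)) := by
      have := C_x2_g1 hK hθ b b; rwa [p1000, p0010] at this
    have h := L.mul_mem (hm a) (L.inv_mem (hm b))
    rw [← c1.eq, ← c2.eq] at h
    have h2 := L.mul_mem (L.mul_mem (L.inv_mem (hx 2 (a : K))) h) (hx 2 (b : K))
    convert h2 using 1
    group
  have h1 : ∀ t, ge θ 1 t ∈ L := by
    intro t
    by_cases h0 : t = 0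
    · rw [h0, ge_zero]; exact L.one_mem
    · obtain ⟨w, w0, w1⟩ := hc
      have s0 : t + w * t ≠ 0 := by
        intro h
        have : t * (1 + w) = 0 := by linear_combination h
        rcases mul_eq_zero.1 this with h | h
        · exact h0 h
        · exact w1 (by linear_combination h - hK)
      have e := J5 hK hθ (Units.mk0 t h0) (Units.mk0 (w * t) (mul_ne_zero w0 h0))
      rw [p1000, p0010, p0110, Units.val_mk0, Units.val_mk0] at e
      change ge θ 1 t * ge θ 1 (w * t) = ge θ 1 (t + w * t) * ze θ 1 (θ t ^ 2 * (w * t)) at e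
      have tt : θ t ^ 2 * (w * t) ≠ 0 := mul_ne_zero
        (pow_ne_zero _ fun h => h0 (θ.injective (by rw [h, map_zero]))) (mul_ne_zero w0 h0)
      have c := C_z1_g1 hK hθ (Units.mk0 _ tt) (Units.mk0 (w * t) (mul_ne_zero w0 h0))
      rw [p1000, p0010, Units.val_mk0, Units.val_mk0] at c
      change ze θ 1 (θ t ^ 2 * (w * t)) * ge θ 1 (w * t) =
        ge θ 1 (w * t) * ze θ 1 (θ t ^ 2 * (w * t)) at c
      have h2 := L.mul_mem (hd (Units.mk0 _ s0) (Units.mk0 (w * t) (mul_ne_zero w0 h0)))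
        (hz 1 (θ t ^ 2 * (w * t)))
      rw [Units.val_mk0, Units.val_mk0] at h2
      convert h2 using 1
      generalize (ge θ 1 t : GLM B6 K) = g0 at *
      generalize (ge θ 1 (w * t) : GLM B6 K) = g1 at *
      generalize (ge θ 1 (t + w * t) : GLM B6 K) = g2 at *
      generalize (ze θ 1 (θ t ^ 2 * (w * t)) : GLM B6 K) = z at *
      calc g0 = g0 * g1 * g1⁻¹ := by group
        _ = g2 * g1⁻¹ * (g1 * z) * g1⁻¹ := by rw [e]; group
        _ = g2 * g1⁻¹ * z := by rw [← c]; group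
  have h2 : ∀ t, ge θ 2 t ∈ L := fun t => of_conj (N_g hK 0 1 t) (hw 0) (h1 t)
  intro j t
  obtain ⟨k, h | h⟩ := idx_z j
  · have := of_conj (N_g hK k 1 t) (hw k) (h1 t)
    rwa [h] at this
  · have := of_conj (N_g hK k 2 t) (hw k) (h2 t)
    rwa [h] at this

end

end H41R
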