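import Mathlib
import Pool.Agent.H.MP_0335f8_al.helper41r.RField
import Pool.Agent.H.MP_0335f8_al.helper41.Odd
import Pool.Agent.H.MP_0335f8_al.SLower

/-!
# The Ree groups: conjugacy and the two bounds
-/

namespace H41R

open H41Chev

variable {K : Type*} [Field K] {θ : K ≃+* K}

/-! ### general group theory -/

/-- conjugacy under a subgroup -/
def CjS {X : Type*} [Group X] (H : Subgroup X) (a b : X) : Prop := ∃ g ∈ H, g * a = b * g

section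

variable {X : Type*} [Group X] {H : Subgroup X}

theorem CjS.refl (H : Subgroup X) (a : X) : CjS H a a := ⟨1, H.one_mem, by group⟩

theorem CjS.symm {a b : X} (h : CjS H a b) : CjS H b a := by
  obtain ⟨g, hg, h⟩ := h
  refine ⟨g⁻¹, H.inv_mem hg, ?_⟩
  calc g⁻¹ * b = g⁻¹ * (b * g) * g⁻¹ := by group
    _ = a * g⁻¹ := by rw [← h]; group

theorem CjS.trans {a b c : X} (h : CjS H a b) (h' : CjS H b c) : CjS H a c := by
  obtain ⟨g, hg, h⟩ := h
  obtain ⟨k, hk, h'⟩ := h'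
  refine ⟨k * g, H.mul_mem hk hg, ?_⟩
  rw [mul_assoc, h, ← mul_assoc, h', mul_assoc]

/-- the upper bound from three elements -/
theorem asmS {a b c : X} (ha : a ∈ H) (h1 : a ≠ 1) (a2 : a * a = 1) (ab : a * b = b * a)
    (cb : CjS H a b) (cab : CjS H a (a * b)) (cc : CjS H a c)
    (gen : ∀ L : Subgroup X, a ∈ L → b ∈ L → c ∈ L → H ≤ L) :
    H47Inv.Admissible ↥H 5 := by
  have cm : ∀ {x : X}, CjS H a x → x ∈ H := by
    rintro x ⟨g, hg, h⟩
    have := H.mul_mem (H.mul_mem hg ha) (H.inv_mem hg)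
    rwa [h, mul_inv_cancel_right] at this
  have co : ∀ {x : X}, CjS H a x → x * x = 1 ∧ x ≠ 1 := by
    rintro x ⟨g, hg, h⟩
    have hx : x = g * a * g⁻¹ := by rw [h, mul_inv_cancel_right]
    constructor
    · rw [hx]
      calc g * a * g⁻¹ * (g * a * g⁻¹) = g * (a * a) * g⁻¹ := by group
        _ = 1 := by rw [a2]; group
    · intro h2
      apply h1
      calc a = g⁻¹ * (g * a * g⁻¹) * g := by group
        _ = 1 := by rw [← hx, h2]; group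
  set ta : ↥H := ⟨a, ha⟩ with hta
  set tb : ↥H := ⟨b, cm cb⟩ with htb
  set tc : ↥H := ⟨c, cm cc⟩ with htc
  have cj : ∀ x : ↥H, CjS H a x.1 → IsConj ta x := by
    rintro ⟨x, hx⟩ ⟨g, hg, h⟩
    rw [isConj_iff]
    refine ⟨⟨g, hg⟩, Subtype.ext ?_⟩
    show g * a * g⁻¹ = x
    rw [h, mul_inv_cancel_right]
  have ord : ∀ x : ↥H, CjS H a x.1 → orderOf x = 2 := by
    intro x hx
    obtain ⟨h2, h3⟩ := co hx
    refine orderOf_eq_prime ?_ ?_
    · rw [pow_two]; exact Subtype.ext h2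
    · intro h; exact h3 (congrArg Subtype.val h)
  have all : ∀ i : Fin 5, CjS H a ((![ta, tb, ta * tb, tc, tc] : Fin 5 → ↥H) i).1 := by
    intro i
    fin_cases i
    · exact CjS.refl H a
    · exact cb
    · exact cab
    · exact cc
    · exact cc
  refine ⟨![ta, tb, ta * tb, tc, tc], fun i => ord _ (all i), fun i j =>
    (cj _ (all i)).symm.trans (cj _ (all j)), ?_, ?_⟩
  · rw [eq_top_iff]
    intro g _
    set L := Subgroup.closure (Set.range (![ta, tb, ta * tb, tc, tc] : Fin 5 → ↥H)) with hL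
    have m : ∀ i : Fin 5, ((![ta, tb, ta * tb, tc, tc] : Fin 5 → ↥H) i).1 ∈ L.map H.subtype :=
      fun i => ⟨_, Subgroup.subset_closure ⟨i, rfl⟩, rfl⟩
    have := gen (L.map H.subtype) (m 0) (m 1) (m 3) g.2
    obtain ⟨g', hg', e⟩ := this
    have : g' = g := Subtype.ext e
    rw [← this]; exact hg'
  · have e : (List.ofFn (![ta, tb, ta * tb, tc, tc] : Fin 5 → ↥H)).prod =
        ta * (tb * (ta * tb * (tc * (tc * 1)))) := by
      simp [List.ofFn_succ]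
    rw [e]
    apply Subtype.ext
    show a * (b * (a * b * (c * (c * 1)))) = 1
    have c2 := (co cc).1
    have b2 := (co cb).1
    calc a * (b * (a * b * (c * (c * 1)))) = a * b * (a * b) * (c * c) := by group
      _ = a * b * (b * a) := by rw [c2, ← ab, mul_one]
      _ = a * (b * b) * a := by group
      _ = 1 := by rw [b2, mul_one, a2]

/-- the commutator subgroup, inside the big group -/
def Dr (H : Subgroup X) : Subgroup X := (commutator ↥H).map H.subtype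

theorem Dr_com {a b c : X} (ha : a ∈ H) (hb : b ∈ H) (e : a * b = c * (b * a)) : c ∈ Dr H := by
  have h2 := Subgroup.commutator_mem_commutator
    (H₁ := (⊤ : Subgroup ↥H)) (H₂ := ⊤) (Subgroup.mem_top ⟨a, ha⟩) (Subgroup.mem_top ⟨b, hb⟩)
  rw [commutatorElement_def] at h2
  refine ⟨_, h2, ?_⟩
  show a * b * a⁻¹ * b⁻¹ = c
  rw [e]; group

theorem Dr_conj {n a b : X} (hn : n ∈ H) (ha : a ∈ Dr H) (e : n * a = b * n) : b ∈ Dr H := by
  obtain ⟨a', ha', rfl⟩ := ha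
  refine ⟨⟨n, hn⟩ * a' * ⟨n, hn⟩⁻¹, ?_, ?_⟩
  · exact (inferInstance : (commutator ↥H).Normal).conj_mem a' ha' ⟨n, hn⟩
  · show n * H.subtype a' * n⁻¹ = b
    rw [e, mul_inv_cancel_right]

theorem lower5S {x y : X} (hx : x ∈ Dr H) (hy : y ∈ Dr H) (h : x * y ≠ y * x) {k : ℕ}
    (hk : H47Inv.Admissible ↥H k) : 5 ≤ k := by
  obtain ⟨x', hx', rfl⟩ := hx
  obtain ⟨y', hy', rfl⟩ := hy
  refine H47Cl.lower5_gen ⟨x', hx', y', hy', ?_⟩ hk
  intro e
  exact h (congrArg Subtype.val e)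

end

/-! ### the Ree group -/

theorem xo_mem (θ : K ≃+* K) (i : Fin 8) (t : K) : xo θ i t ∈ RG θ := Q_mem θ (od_ok i) t

theorem ze_mem (θ : K ≃+* K) (i : Fin 8) (t : K) : ze θ i t ∈ RG θ := Q_mem θ (ev_ok i) t

theorem ge_mem (θ : K ≃+* K) (i : Fin 8) (t : K) : ge θ i t ∈ RG θ := G_mem θ (fv_ok i) t

theorem w_mem (hK : (2 : K) = 0) (θ : K ≃+* K) (i : Fin 8) : NN good6t (wk i) ∈ RG θ :=
  wk_mem hK (xo_mem θ i 1) (xo_mem θ (i + 4) 1)

theorem ze_ne (θ : K ≃+* K) : (ze θ 1 1 : GLM B6 K) ≠ 1 := by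
  intro h
  have hz : ip B6 (ez 1) (ez 1) = 2 := by decide +kernel
  have hw : ip B6 ![0, 0, 0, 0, 1, 0] ![0, 0, 0, 0, 1, 0] = 2 := by decide +kernel
  have h1 : ip B6 ![0, 0, 0, 0, 1, 0] (ez 1) = -1 := by decide +kernel
  have h2 : 0 ≤ ip B6 ![0, 0, 0, 0, 1, 0] (er 1) := by decide +kernel
  have h3 : 0 ≤ ip B6 ![0, 0, 0, 0, 1, 0] (tau (er 1)) := by decide +kernel
  have c := X_com (K := K) good6t hw hz h1 ((eps B6 ![0, 0, 0, 0, 1, 0] (ez 1) : ℤ) : K) 1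
  rw [sq_cast (eps_sq _ _), mul_one] at c
  have c2 := X_comm (K := K) good6t h2 ((eps B6 ![0, 0, 0, 0, 1, 0] (ez 1) : ℤ) : K) 1
  have c3 := X_comm (K := K) good6t h3 ((eps B6 ![0, 0, 0, 0, 1, 0] (ez 1) : ℤ) : K) 1
  refine X_ne_one (K := K) good6t (root_add good6t hw hz h1) ?_
  unfold ze at h
  rw [Q_one] at h
  generalize (X good6t ![0, 0, 0, 0, 1, 0] ((eps B6 ![0, 0, 0, 0, 1, 0] (ez 1) : ℤ) : K) :
    GLM B6 K) = w at *
  generalize (X good6t (ez 1) 1 : GLM B6 K) = z at *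
  generalize (X good6t (er 1) 1 : GLM B6 K) = r at *
  generalize (X good6t (tau (er 1)) 1 : GLM B6 K) = s at *
  generalize (X good6t (![0, 0, 0, 0, 1, 0] + ez 1) 1 : GLM B6 K) = y at *
  have hz' : z = s⁻¹ * r⁻¹ := by
    calc z = z * r * s * (s⁻¹ * r⁻¹) := by group
      _ = _ := by rw [h, one_mul]
  have cz : w * z = z * w := by
    have k2 : Commute w r := c2
    have k3 : Commute w s := c3
    rw [hz']
    exact (k3.inv_right.mul_right k2.inv_right).eq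
  rw [cz] at c
  calc y = y * z * w * (z * w)⁻¹ := by group
    _ = 1 := by rw [← c, mul_inv_cancel]

section

variable (hK : (2 : K) = 0) (hθ : ∀ x, θ (θ x) ^ 2 = x)

include hK hθ

theorem x0_ne : (xo θ 0 1 : GLM B6 K) ≠ 1 := by
  intro h
  have e := j1 hK hθ 1 1
  rw [Units.val_one, mul_one, h, one_mul, mul_one] at e
  apply ze_ne (K := K) θ
  calc ze θ 1 1 = ze θ 1 1 * ze θ 2 1 * (ze θ 2 1)⁻¹ := by group
    _ = 1 := by rw [← e, mul_inv_cancel]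

/-- the lower bound -/
theorem lowerR {k : ℕ} (h : H47Inv.Admissible ↥(RG θ) k) : 5 ≤ k := by
  have e1 := j1 hK hθ 1 1
  rw [Units.val_one, mul_one] at e1
  have z1 : ze θ 1 1 ∈ Dr (RG θ) :=
    Dr_com (xo_mem θ 0 1) (ze_mem θ 2 1) (by rw [e1, mul_assoc])
  have z2 : ze θ 2 1 ∈ Dr (RG θ) := Dr_conj (w_mem hK θ 0) z1 (N_z hK 0 1 (1 : K))
  have e2 := j2 hK hθ (1 : Kˣ) 1
  rw [Units.val_one, mul_one, map_one, one_pow, mul_one] at e2
  have x2 : xo θ 2 1 ∈ Dr (RG θ) := by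
    have : xo θ 2 1 * ze θ 1 1 * ze θ 2 1 ∈ Dr (RG θ) :=
      Dr_com (ze_mem θ 0 1) (ze_mem θ 3 1) (by rw [e2]; group)
    have := (Dr (RG θ)).mul_mem ((Dr (RG θ)).mul_mem this ((Dr (RG θ)).inv_mem z2))
      ((Dr (RG θ)).inv_mem z1)
    rwa [mul_inv_cancel_right, mul_inv_cancel_right] at this
  have x0 : xo θ 0 1 ∈ Dr (RG θ) := Dr_conj (w_mem hK θ 7) x2 (N_x hK 7 2 (1 : K))
  refine lower5S x0 z2 ?_ h
  intro hc
  rw [hc, mul_assoc] at e1
  apply ze_ne (K := K) θ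
  calc ze θ 1 1 = ze θ 1 1 * (ze θ 2 1 * xo θ 0 1) * (ze θ 2 1 * xo θ 0 1)⁻¹ := by group
    _ = 1 := by rw [← e1, mul_inv_cancel]

/-! ### conjugacy -/

theorem cj1 [Finite K] {s : K} (hs : s ≠ 0) : CjS (RG θ) (xo θ 0 s) (xo θ 0 s * xo θ 2 1) := by
  obtain ⟨q, hq⟩ := sq_unit hK hs 1
  rw [pow_one] at hq
  have h := J6 hK hθ q q
  rw [p2000, p0000, hq] at h
  refine ⟨ge θ 1 (pm θ q q (-1) 1 0 0) * ge θ 2 (pm θ q q 1 (-1) 0 0) *
    xo θ 3 (pm θ q q 0 (-1) 0 0),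
    (RG θ).mul_mem ((RG θ).mul_mem (ge_mem θ 1 _) (ge_mem θ 2 _)) (xo_mem θ 3 _), ?_⟩
  exact h.trans (by simp only [← mul_assoc]; rfl)

theorem cj2 {s : K} (hs : s ≠ 0) : CjS (RG θ) (xo θ 0 s * xo θ 2 1)
    (xo θ 0 s * xo θ 2 1 * ze θ 0 1) := by
  have h := j3 hK hθ (Units.mk0 s hs)
  rw [Units.val_mk0] at h
  refine ⟨ze θ 7 1, ze_mem θ 7 1, ?_⟩
  have z2 := ze_two (θ := θ) hK 7 1
  rw [← h]
  calc ze θ 7 1 * (xo θ 0 s * xo θ 2 1) =
      ze θ 7 1 * xo θ 0 s * xo θ 2 1 * 1 := by group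
    _ = _ := by rw [← z2]; group

end

theorem QQQ_mem (θ : K ≃+* K) (s t : K) :
    xo θ 0 s * xo θ 4 t * xo θ 0 s ∈ RG θ :=
  (RG θ).mul_mem ((RG θ).mul_mem (xo_mem θ 0 s) (xo_mem θ 4 t)) (xo_mem θ 0 s)

theorem QQQ_gen (θ : K ≃+* K) {z r : Fin 6 → ℤ} (h : Tr3 z r) (s t : K) :
    Q θ z r s * Q θ (-z) (-r) t * Q θ z r s =
      (X good6t z (θ s ^ 2) * X good6t (-z) (θ t ^ 2) * X good6t z (θ s ^ 2)) *
      (X good6t r s * X good6t (-r) t * X good6t r s) *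
      (X good6t (tau r) s * X good6t (-tau r) t * X good6t (tau r) s) := by
  obtain ⟨h1, h2, h3, o1, o2, o3⟩ := h
  unfold Q
  rw [flip_neg]
  have c10 := (Og_comm (K := K) (Og_symm o1) s (θ s ^ 2)).eq
  have c20 := (Og_comm (K := K) (Og_symm o2) s (θ s ^ 2)).eq
  have c21 := (Og_comm (K := K) (Og_symm o3) s s).eq
  have d10 := (Og_comm (K := K) (Og_neg (Og_symm o1)) s (θ t ^ 2)).eq
  have d20 := (Og_comm (K := K) (Og_neg (Og_symm o2)) s (θ t ^ 2)).eq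
  have d21 := (Og_comm (K := K) (Og_neg (Og_symm o3)) s t).eq
  have f10 := (Og_comm (K := K) (Og_neg' (Og_symm o1)) t (θ s ^ 2)).eq
  have f20 := (Og_comm (K := K) (Og_neg' (Og_symm o2)) t (θ s ^ 2)).eq
  have f21 := (Og_comm (K := K) (Og_neg' (Og_symm o3)) t s).eq
  generalize (X good6t z (θ s ^ 2) : GLM B6 K) = x0 at *
  generalize (X good6t r s : GLM B6 K) = x1 at *
  generalize (X good6t (tau r) s : GLM B6 K) = x2 at *
  generalize (X good6t (-z) (θ t ^ 2) : GLM B6 K) = y0 at *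
  generalize (X good6t (-r) t : GLM B6 K) = y1 at *
  generalize (X good6t (-tau r) t : GLM B6 K) = y2 at *
  calc x0 * x1 * x2 * (y0 * y1 * y2) * (x0 * x1 * x2)
      = x0 * x1 * (x2 * y0) * y1 * (y2 * x0) * x1 * x2 := by group
    _ = x0 * (x1 * y0) * (x2 * y1) * x0 * (y2 * x1) * x2 := by rw [d20, f20]; group
    _ = x0 * y0 * x1 * y1 * (x2 * x0) * x1 * y2 * x2 := by rw [d10, d21, f21]; group
    _ = x0 * y0 * x1 * (y1 * x0) * (x2 * x1) * y2 * x2 := by rw [c20]; group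
    _ = x0 * y0 * (x1 * x0) * y1 * x1 * x2 * y2 * x2 := by rw [f10, c21]; group
    _ = _ := by rw [c10]; group

/-- the torus elements -/
theorem tor_mem (hK : (2 : K) = 0) (θ : K ≃+* K) (q : Kˣ) :
    HH B6 (oz 0) (Units.map (θ : K →* K) q ^ 2) * HH B6 (orr 0) q * HH B6 (tau (orr 0)) q ∈ RG θ := by
  have h : Tr3 (oz 0) (orr 0) := tr_od 0
  have w0 : ip B6 (oz 0) ![0, 0, 0, 0, -1, 0] = 1 := by decide +kernel
  have w1 : ip B6 (orr 0) ![0, 0, 0, -1, 0, 0] = 1 := by decide +kernel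
  have w2 : ip B6 (tau (orr 0)) ![0, 0, -1, 0, 0, 0] = 1 := by decide +kernel
  set q0 : Kˣ := Units.map (θ : K →* K) q ^ 2 with hq0
  have e0 : (q0 : K) = θ (q : K) ^ 2 := rfl
  have i0 : ((q0⁻¹ : Kˣ) : K) = θ ((q⁻¹ : Kˣ) : K) ^ 2 := by
    rw [Units.val_inv_eq_inv_val, Units.val_inv_eq_inv_val, map_inv₀, e0, inv_pow]
  obtain ⟨h1, h2, h3, o1, o2, o3⟩ := h
  have m1 : xo θ 0 (q : K) * xo θ 4 ((q⁻¹ : Kˣ) : K) * xo θ 0 (q : K) =
      (HH B6 (oz 0) q0 * nn good6t (oz 0)) * (HH B6 (orr 0) q * nn good6t (orr 0)) *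
      (HH B6 (tau (orr 0)) q * nn good6t (tau (orr 0))) := by
    rw [← HH_rel good6t h1 w0 q0, ← HH_rel good6t h2 w1 q, ← HH_rel good6t h3 w2 q, e0, i0,
      ← QQQ_gen θ ⟨h1, h2, h3, o1, o2, o3⟩]
    unfold xo
    rw [show oz 4 = -oz 0 from (neg_od 0).1, show orr 4 = -orr 0 from (neg_od 0).2]
  have m2 : xo θ 0 1 * xo θ 4 1 * xo θ 0 1 =
      (nn good6t (oz 0) * (nn good6t (orr 0) * nn good6t (tau (orr 0))) : GLM B6 K) := by
    have := NN_wk hK θ 0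
    rw [show (0 : Fin 8) + 4 = 4 from rfl] at this
    rw [← this]
    show nn good6t _ * (nn good6t _ * (nn good6t _ * 1)) = _
    rw [mul_one]
  have n1 := QQQ_mem θ (q : K) ((q⁻¹ : Kˣ) : K)
  have n2 := QQQ_mem θ (1 : K) 1
  rw [m1] at n1
  rw [m2] at n2
  have rfo : ∀ {a b : Fin 6 → ℤ}, Og a b → rf B6 a b = b := by
    intro a b h; unfold rf; rw [show ip B6 a b = 0 from h, zero_smul, sub_zero]
  have k1 : (nn good6t (oz 0) * HH B6 (orr 0) q : GLM B6 K) =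
      HH B6 (orr 0) q * nn good6t (oz 0) := by rw [nn_HH good6t h1, rfo o1]
  have k2 : (nn good6t (oz 0) * HH B6 (tau (orr 0)) q : GLM B6 K) =
      HH B6 (tau (orr 0)) q * nn good6t (oz 0) := by rw [nn_HH good6t h1, rfo o2]
  have k3 : (nn good6t (orr 0) * HH B6 (tau (orr 0)) q : GLM B6 K) =
      HH B6 (tau (orr 0)) q * nn good6t (orr 0) := by rw [nn_HH good6t h2, rfo o3]
  have h := (RG θ).mul_mem n1 ((RG θ).inv_mem n2)
  convert h using 1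
  generalize (HH B6 (oz 0) q0 : GLM B6 K) = h0 at *
  generalize (HH B6 (orr 0) q : GLM B6 K) = h1 at *
  generalize (HH B6 (tau (orr 0)) q : GLM B6 K) = h2 at *
  generalize (nn good6t (oz 0) : GLM B6 K) = w0 at *
  generalize (nn good6t (orr 0) : GLM B6 K) = w1 at *
  generalize (nn good6t (tau (orr 0)) : GLM B6 K) = w2 at *
  symm
  calc h0 * w0 * (h1 * w1) * (h2 * w2) * (w0 * (w1 * w2))⁻¹
      = h0 * (w0 * h1) * (w1 * h2) * w2 * (w0 * (w1 * w2))⁻¹ := by group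
    _ = h0 * h1 * (w0 * h2) * w1 * w2 * (w0 * (w1 * w2))⁻¹ := by rw [k1, k3]; group
    _ = h0 * h1 * h2 := by rw [k2]; group

/-- scaling of the parameter -/
theorem cj3 [Finite K] (hK : (2 : K) = 0) (θ : K ≃+* K) {s : K} (hs : s ≠ 0) :
    CjS (RG θ) (xo θ 0 1) (xo θ 0 s) := by
  obtain ⟨q, hq⟩ := sq_unit hK hs 1
  rw [pow_one] at hq
  refine ⟨_, tor_mem hK θ q, ?_⟩
  obtain ⟨h1, h2, h3, o1, o2, o3⟩ := tr_od 0
  set q0 : Kˣ := Units.map (θ : K →* K) q ^ 2 with hq0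
  have s0 : ((q0 ^ (2 : ℤ) : Kˣ) : K) = θ s ^ 2 := by
    rw [show (q0 ^ (2 : ℤ) : Kˣ) = q0 ^ 2 from rfl, Units.val_pow_eq_pow_val, ← hq, map_pow]; rfl
  have s1 : ((q ^ (2 : ℤ) : Kˣ) : K) = s := by
    rw [show (q ^ (2 : ℤ) : Kˣ) = q ^ 2 from rfl, Units.val_pow_eq_pow_val, hq]
  have t0 : ∀ {a b : Fin 6 → ℤ} {p : Kˣ} {s : K}, Og a b →
      (HH B6 a p * X good6t b s : GLM B6 K) = X good6t b s * HH B6 a p := by
    intro a b p s h
    rw [HH_X good6t, show ip B6 a b = 0 from h, zpow_zero, Units.val_one, one_mul]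
  have t2 : ∀ {a : Fin 6 → ℤ} {p : Kˣ}, ip B6 a a = 2 →
      (HH B6 a p * X good6t a 1 : GLM B6 K) = X good6t a ((p ^ (2 : ℤ) : Kˣ) : K) * HH B6 a p := by
    intro a p h
    rw [HH_X good6t, h, mul_one]
  unfold xo
  rw [Q_one]
  unfold Q
  have b0 := t2 (p := q0) h1
  have b1 := t2 (p := q) h2
  have b2 := t2 (p := q) h3
  rw [s0] at b0
  rw [s1] at b1 b2
  have c01 := t0 (p := q0) (s := s) o1
  have c02 := t0 (p := q0) (s := s) o2
  have c10 := t0 (p := q) (s := (1 : K)) (Og_symm o1)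
  have c12 := t0 (p := q) (s := s) o3
  have c20 := t0 (p := q) (s := (1 : K)) (Og_symm o2)
  have c21 := t0 (p := q) (s := (1 : K)) (Og_symm o3)
  generalize (HH B6 (oz 0) q0 : GLM B6 K) = h0 at *
  generalize (HH B6 (orr 0) q : GLM B6 K) = h1 at *
  generalize (HH B6 (tau (orr 0)) q : GLM B6 K) = h2 at *
  generalize (X good6t (oz 0) 1 : GLM B6 K) = x0 at *
  generalize (X good6t (orr 0) 1 : GLM B6 K) = x1 at *
  generalize (X good6t (tau (orr 0)) 1 : GLM B6 K) = x2 at *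
  generalize (X good6t (oz 0) (θ s ^ 2) : GLM B6 K) = z0 at *
  generalize (X good6t (orr 0) s : GLM B6 K) = z1 at *
  generalize (X good6t (tau (orr 0)) s : GLM B6 K) = z2 at *
  calc h0 * h1 * h2 * (x0 * x1 * x2) = h0 * h1 * (h2 * x0) * x1 * x2 := by group
    _ = h0 * (h1 * x0) * (h2 * x1) * x2 := by rw [c20]; group
    _ = (h0 * x0) * (h1 * x1) * (h2 * x2) := by rw [c10, c21]; group
    _ = z0 * (h0 * z1) * (h1 * z2) * h2 := by rw [b0, b1, b2]; group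
    _ = z0 * z1 * (h0 * z2) * h1 * h2 := by rw [c01, c12]; group
    _ = z0 * z1 * z2 * (h0 * h1 * h2) := by rw [c02]; group

theorem cj4 (hK : (2 : K) = 0) (θ : K ≃+* K) :
    CjS (RG θ) (xo θ 4 1 * xo θ 6 1) (xo θ 0 1 * xo θ 2 1) := by
  refine CjS.trans (b := xo θ 0 1 * xo θ 6 1) ⟨_, w_mem hK θ 0, ?_⟩ ⟨_, w_mem hK θ 2, ?_⟩
  · rw [← mul_assoc, N_x hK 0 4, mul_assoc, N_x hK 0 6, ← mul_assoc]; rfl
  · rw [← mul_assoc, N_x hK 2 0, mul_assoc, N_x hK 2 6, ← mul_assoc]; rfl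

/-- the upper bound -/
theorem admR' [Finite K] (hK : (2 : K) = 0) (hθ : ∀ x, θ (θ x) ^ 2 = x) {v : K} (v0 : v ≠ 0)
    (v1 : v ≠ 1) (hp : ∀ x : K, x ≠ 0 → ∃ k : ℕ, x = v ^ k) :
    H47Inv.Admissible ↥(RG θ) 5 := by
  have v2 : 1 + v ≠ 0 := fun h => v1 (by linear_combination h - hK)
  have a2 := xo_two (θ := θ) hK 0 1
  have c02' : ∀ s : Kˣ, Commute (xo θ 0 (s : K)) (xo θ 2 1 : GLM B6 K) := by
    intro s
    have := c02 hK hθ s 1; rwa [Units.val_one] at this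
  have c00' : Commute (xo θ 0 1) (ze θ 0 1 : GLM B6 K) := by
    have := d00 hK hθ 1 1; rwa [Units.val_one] at this
  have c20' : Commute (xo θ 0 1) (xo θ 2 1 : GLM B6 K) := by
    have := c02' 1; rwa [Units.val_one] at this
  have caa : Commute (xo θ 0 1) (xo θ 0 v : GLM B6 K) := by
    show _ = _
    rw [xo_add hK, xo_add hK, add_comm]
  have ab : xo θ 0 1 * (xo θ 0 v * xo θ 2 1 * ze θ 0 1) =
      xo θ 0 (1 + v) * xo θ 2 1 * ze θ 0 1 := by
    rw [← xo_add hK]; simp only [mul_assoc]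
  refine asmS (a := xo θ 0 1) (b := xo θ 0 v * xo θ 2 1 * ze θ 0 1) (c := xo θ 4 1 * xo θ 6 1)
    (xo_mem θ 0 1) (x0_ne hK hθ) a2 ?_ ?_ ?_ ?_ ?_
  · exact ((caa.mul_right c20').mul_right c00').eq
  · exact (cj3 hK θ v0).trans ((cj1 hK hθ v0).trans (cj2 hK hθ v0))
  · rw [ab]
    exact (cj3 hK θ v2).trans ((cj1 hK hθ v2).trans (cj2 hK hθ v2))
  · exact (cj1 hK hθ one_ne_zero).trans (cj4 hK θ).symm
  · intro L h1 h2 h3
    obtain ⟨h6, h4⟩ := st1 hK hθ h1 h3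
    obtain ⟨hv, hy⟩ := st2 hK hθ (Units.mk0 v v0) h6 h2
    obtain ⟨hx2, z0, z1⟩ := st3 hK hθ h1 h4 hy
    obtain ⟨hw, -⟩ := st5 hK hθ h1 h4 h6 hx2 z0 z1
    have hz := zAll hK hθ v0 hp hv hw z1
    have hx := xAll hK hθ hw hz
    have hg := gAll hK hθ ⟨v, v0, v1⟩ hw hz hx
    exact RG_le' hx hz hg

/-- the upper bound -/
theorem admR [Finite K] (hK : (2 : K) = 0) (hθ : ∀ x, θ (θ x) ^ 2 = x) (hc : Nat.card K ≠ 2) :
    H47Inv.Admissible ↥(RG θ) 5 := by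
  obtain ⟨u, hu, hg⟩ := exists_gen K
  refine admR' hK hθ hu ?_ hg
  rintro rfl
  apply hc
  have h2 : ∀ x : K, x = 0 ∨ x = 1 := by
    intro x
    by_cases h : x = 0
    · exact Or.inl h
    · obtain ⟨k, hk⟩ := hg x h
      exact Or.inr (by rw [hk, one_pow])
  have e : (Set.univ : Set K) = {0, 1} := by
    ext x; simpa using h2 x
  have := Set.ncard_univ K
  rw [← this, e, Set.ncard_pair zero_ne_one]

end H41R
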